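import Mathlib

/-!
# A triangle attached to a rigid body by three bars in the plane: a second placement
-/

set_option autoImplicit false

open MvPolynomial

namespace Pool.Agent.H42.RG

/-- A polynomial that does not vanish at some rational point does not vanish at an algebraically
independent family. -/
lemma transfer {ι : Type*} {f : ι → ℝ} (hf : AlgebraicIndependent ℚ f) (P : MvPolynomial ι ℚ)
    (r : ι → ℚ) (hr : MvPolynomial.eval r P ≠ 0) : MvPolynomial.aeval f P ≠ 0 := by
  intro h
  have : P = 0 := hf (by simpa using h)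
  apply hr
  rw [this]; simp

/-- Algebraic independence passes to polynomial expressions with a polynomial retraction. -/
lemma algInd_of_retract {ι κ : Type*} {f : ι → ℝ} (hf : AlgebraicIndependent ℚ f)
    (L : κ → MvPolynomial ι ℚ) (r : ι → MvPolynomial κ ℚ)
    (h : ∀ k, (MvPolynomial.aeval r) (L k) = MvPolynomial.X k) :
    AlgebraicIndependent ℚ (fun k => MvPolynomial.aeval f (L k)) := by
  have e1 : (MvPolynomial.aeval (fun k => MvPolynomial.aeval f (L k)) :
      MvPolynomial κ ℚ →ₐ[ℚ] ℝ) = (MvPolynomial.aeval f).comp (MvPolynomial.aeval L) := by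
    ext k; simp
  have e2 : ((MvPolynomial.aeval r).comp (MvPolynomial.aeval L) :
      MvPolynomial κ ℚ →ₐ[ℚ] MvPolynomial κ ℚ) = AlgHom.id ℚ _ := by
    apply MvPolynomial.algHom_ext
    intro k
    simp only [AlgHom.comp_apply, aeval_X, h, AlgHom.id_apply]
  have e3 : Function.Injective (MvPolynomial.aeval L : MvPolynomial κ ℚ →ₐ[ℚ] _) := by
    intro P Q hPQ
    have := congrArg (MvPolynomial.aeval r) hPQ
    have h2 := DFunLike.congr_fun e2 P
    have h3 := DFunLike.congr_fun e2 Q
    simp only [AlgHom.comp_apply, AlgHom.id_apply] at h2 h3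
    rw [← h2, ← h3, this]
  rw [AlgebraicIndependent, e1]
  simp only [AlgHom.coe_comp]
  exact Function.Injective.comp hf e3

/-- If `f` is algebraically independent and `α * f i = β` with `α`, `β` algebraic over the ring
generated by the other coordinates, then `α = 0`. -/
lemma coeff_zero {ι : Type*} {f : ι → ℝ} (hf : AlgebraicIndependent ℚ f) (i : ι) {α β : ℝ}
    (hα : IsAlgebraic (Algebra.adjoin ℚ (f '' {j | j ≠ i})) α)
    (hβ : IsAlgebraic (Algebra.adjoin ℚ (f '' {j | j ≠ i})) β)
    (h : α * f i = β) : α = 0 := by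
  by_contra hne
  have h1 : f i = α⁻¹ * β := by field_simp; linarith
  have h2 : Transcendental (Algebra.adjoin ℚ (f '' {j | j ≠ i})) (f i) :=
    hf.transcendental_adjoin (by simp)
  apply h2
  rw [h1]
  exact hα.inv.mul hβ

end Pool.Agent.H42.RG
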