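import Pool.Agent.H42.RG.Gnp

/-!
# Triangles of degree-three vertices in the 3-core
-/

set_option autoImplicit false

open Classical

namespace Pool.Agent.H42.RG

/-- The vertex set of the `k`-core of `G`: the union of all vertex sets `A` such that every vertex
of `A` has at least `k` neighbours in `A`. -/
def coreSet {V : Type*} (G : SimpleGraph V) (k : ℕ) : Set V :=
  {v | ∃ A : Set V, v ∈ A ∧ ∀ u ∈ A, k ≤ (G.neighborSet u ∩ A).ncard}

lemma subset_coreSet {V : Type*} {G : SimpleGraph V} {k : ℕ} {A : Set V}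
    (hA : ∀ u ∈ A, k ≤ (G.neighborSet u ∩ A).ncard) : A ⊆ coreSet G k :=
  fun v hv => ⟨A, hv, hA⟩

/-- The `k`-core has minimum degree at least `k`. -/
lemma coreSet_spec {V : Type*} [Finite V] (G : SimpleGraph V) (k : ℕ) :
    ∀ u ∈ coreSet G k, k ≤ (G.neighborSet u ∩ coreSet G k).ncard := by
  rintro u ⟨A, hu, hA⟩
  refine (hA u hu).trans (Set.ncard_le_ncard ?_ (Set.toFinite _))
  exact Set.inter_subset_inter_right _ (subset_coreSet hA)

/-- A triangle `a b c` of vertices of degree three in the 3-core. -/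
def Pat {V : Type*} (G : SimpleGraph V) (a b c x y z : V) : Prop :=
  (a ≠ b ∧ a ≠ c ∧ b ≠ c) ∧ (x ≠ y ∧ x ≠ z ∧ y ≠ z) ∧
  ((a ≠ x ∧ a ≠ y ∧ a ≠ z) ∧ (b ≠ x ∧ b ≠ y ∧ b ≠ z) ∧ (c ≠ x ∧ c ≠ y ∧ c ≠ z)) ∧
  (∀ w, G.Adj a w ↔ w = b ∨ w = c ∨ w = x) ∧
  (∀ w, G.Adj b w ↔ w = a ∨ w = c ∨ w = y) ∧
  (∀ w, G.Adj c w ↔ w = a ∨ w = b ∨ w = z) ∧
  (a ∈ coreSet G 3 ∧ b ∈ coreSet G 3 ∧ c ∈ coreSet G 3) ∧
  (x ∈ coreSet G 3 ∧ y ∈ coreSet G 3 ∧ z ∈ coreSet G 3)

/-- `a`, `b`, `c` are isolated and `x`, `y`, `z` are in the 3-core. -/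
def Pre {V : Type*} (G : SimpleGraph V) (a b c x y z : V) : Prop :=
  (∀ w, ¬ G.Adj a w ∧ ¬ G.Adj b w ∧ ¬ G.Adj c w) ∧
  (x ∈ coreSet G 3 ∧ y ∈ coreSet G 3 ∧ z ∈ coreSet G 3)

/-- The six edges. -/
def six {n : ℕ} (a b c x y z : Fin n) : Finset (Sym2 (Fin n)) :=
  {s(a, b), s(b, c), s(a, c), s(a, x), s(b, y), s(c, z)}

lemma isolated_not_core {V : Type*} {G : SimpleGraph V} {k : ℕ} (hk : 0 < k) {a : V}
    (ha : ∀ w, ¬ G.Adj a w) : a ∉ coreSet G k := by
  rintro ⟨A, haA, hA⟩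
  have h := hA a haA
  have : G.neighborSet a = ∅ := by
    ext w; simp [ha w]
  rw [this] at h
  simp at h
  omega

lemma pat_of_pre {n : ℕ} {G : SimpleGraph (Fin n)} {a b c x y z : Fin n}
    (hab : a ≠ b) (hac : a ≠ c) (hbc : b ≠ c) (hxy : x ≠ y) (hxz : x ≠ z) (hyz : y ≠ z)
    (h : Pre G a b c x y z) :
    Pat (G ⊔ SimpleGraph.fromEdgeSet (six a b c x y z : Set (Sym2 (Fin n)))) a b c x y z := by
  obtain ⟨hiso, hx, hy, hz⟩ := h
  have ia : ∀ w, ¬ G.Adj a w := fun w => (hiso w).1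
  have ib : ∀ w, ¬ G.Adj b w := fun w => (hiso w).2.1
  have ic : ∀ w, ¬ G.Adj c w := fun w => (hiso w).2.2
  have na := isolated_not_core (G := G) (k := 3) (by norm_num) ia
  have nb := isolated_not_core (G := G) (k := 3) (by norm_num) ib
  have nc := isolated_not_core (G := G) (k := 3) (by norm_num) ic
  have hax : a ≠ x := fun h => na (h ▸ hx)
  have hay : a ≠ y := fun h => na (h ▸ hy)
  have haz : a ≠ z := fun h => na (h ▸ hz)
  have hbx : b ≠ x := fun h => nb (h ▸ hx)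
  have hby : b ≠ y := fun h => nb (h ▸ hy)
  have hbz : b ≠ z := fun h => nb (h ▸ hz)
  have hcx : c ≠ x := fun h => nc (h ▸ hx)
  have hcy : c ≠ y := fun h => nc (h ▸ hy)
  have hcz : c ≠ z := fun h => nc (h ▸ hz)
  set G' := G ⊔ SimpleGraph.fromEdgeSet (six a b c x y z : Set (Sym2 (Fin n))) with hG'
  have Na : ∀ w, G'.Adj a w ↔ w = b ∨ w = c ∨ w = x := by
    intro w
    simp only [hG', SimpleGraph.sup_adj, SimpleGraph.fromEdgeSet_adj, six, Finset.coe_insert,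
      Finset.coe_singleton, Set.mem_insert_iff, Set.mem_singleton_iff, Sym2.eq_iff, ia w,
      false_or]
    constructor
    · rintro ⟨h, h2⟩
      rcases h with h | h | h | h | h | h <;> rcases h with ⟨h3, h4⟩ | ⟨h3, h4⟩ <;>
        simp_all
    · rintro (rfl | rfl | rfl)
      · exact ⟨by simp, hab⟩
      · exact ⟨by simp, hac⟩
      · exact ⟨by simp, hax⟩
  have Nb : ∀ w, G'.Adj b w ↔ w = a ∨ w = c ∨ w = y := by
    intro w
    simp only [hG', SimpleGraph.sup_adj, SimpleGraph.fromEdgeSet_adj, six, Finset.coe_insert,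
      Finset.coe_singleton, Set.mem_insert_iff, Set.mem_singleton_iff, Sym2.eq_iff, ib w,
      false_or]
    constructor
    · rintro ⟨h, h2⟩
      rcases h with h | h | h | h | h | h <;> rcases h with ⟨h3, h4⟩ | ⟨h3, h4⟩ <;>
        simp_all
    · rintro (rfl | rfl | rfl)
      · exact ⟨by simp, hab.symm⟩
      · exact ⟨by simp, hbc⟩
      · exact ⟨by simp, hby⟩
  have Nc : ∀ w, G'.Adj c w ↔ w = a ∨ w = b ∨ w = z := by
    intro w
    simp only [hG', SimpleGraph.sup_adj, SimpleGraph.fromEdgeSet_adj, six, Finset.coe_insert,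
      Finset.coe_singleton, Set.mem_insert_iff, Set.mem_singleton_iff, Sym2.eq_iff, ic w,
      false_or]
    constructor
    · rintro ⟨h, h2⟩
      rcases h with h | h | h | h | h | h <;> rcases h with ⟨h3, h4⟩ | ⟨h3, h4⟩ <;>
        simp_all
    · rintro (rfl | rfl | rfl)
      · exact ⟨by simp, hac.symm⟩
      · exact ⟨by simp, hbc.symm⟩
      · exact ⟨by simp, hcz⟩
  have hcore : coreSet G 3 ∪ {a, b, c} ⊆ coreSet G' 3 := by
    apply subset_coreSet
    have three : ∀ (A : Set (Fin n)) (u v w : Fin n), u ≠ v → u ≠ w → v ≠ w → u ∈ A → v ∈ A →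
        w ∈ A → 3 ≤ A.ncard := by
      intro A u v w huv huw hvw hu hv hw
      have : ({u, v, w} : Set (Fin n)).ncard = 3 := by
        rw [Set.ncard_eq_three]
        exact ⟨u, v, w, huv, huw, hvw, rfl⟩
      rw [← this]
      refine Set.ncard_le_ncard ?_ (Set.toFinite _)
      intro r hr
      simp only [Set.mem_insert_iff, Set.mem_singleton_iff] at hr
      rcases hr with rfl | rfl | rfl <;> assumption
    intro u hu
    rcases hu with hu | hu
    · refine (coreSet_spec G 3 u hu).trans (Set.ncard_le_ncard ?_ (Set.toFinite _))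
      intro v hv
      exact ⟨Or.inl hv.1, Or.inl hv.2⟩
    · simp only [Set.mem_insert_iff, Set.mem_singleton_iff] at hu
      rcases hu with rfl | rfl | rfl
      · refine three _ b c x hbc hbx hcx ⟨(Na b).2 (by simp), by simp⟩ ⟨(Na c).2 (by simp), by simp⟩
          ⟨(Na x).2 (by simp), Or.inl hx⟩
      · refine three _ a c y hac hay hcy ⟨(Nb a).2 (by simp), by simp⟩ ⟨(Nb c).2 (by simp), by simp⟩
          ⟨(Nb y).2 (by simp), Or.inl hy⟩
      · refine three _ a b z hab haz hbz ⟨(Nc a).2 (by simp), by simp⟩ ⟨(Nc b).2 (by simp), by simp⟩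
          ⟨(Nc z).2 (by simp), Or.inl hz⟩
  exact ⟨⟨hab, hac, hbc⟩, ⟨hxy, hxz, hyz⟩, ⟨⟨hax, hay, haz⟩, ⟨hbx, hby, hbz⟩, ⟨hcx, hcy, hcz⟩⟩,
    Na, Nb, Nc, ⟨hcore (by simp), hcore (by simp), hcore (by simp)⟩,
    ⟨hcore (Or.inl hx), hcore (Or.inl hy), hcore (Or.inl hz)⟩⟩

end Pool.Agent.H42.RG
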