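import Pool.Agent.H42.RG.Core

/-!
# First moment
-/

set_option autoImplicit false

open Classical

namespace Pool.Agent.H42.RG

lemma six_card {n : ℕ} (a b c x y z : Fin n) : (six a b c x y z).card ≤ 6 := by
  unfold six
  exact Finset.card_le_six

lemma six_touch {n : ℕ} {a b c x y z : Fin n} {e : Sym2 (Fin n)} (he : e ∈ six a b c x y z) :
    a ∈ e ∨ b ∈ e ∨ c ∈ e := by
  simp only [six, Finset.mem_insert, Finset.mem_singleton] at he
  rcases he with rfl | rfl | rfl | rfl | rfl | rfl <;> simp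

lemma six_pairs {n : ℕ} {a b c x y z : Fin n} (hab : a ≠ b) (hac : a ≠ c) (hbc : b ≠ c)
    (hax : a ≠ x) (hby : b ≠ y) (hcz : c ≠ z) : six a b c x y z ⊆ pairs n := by
  intro e he
  rw [mem_pairs]
  simp only [six, Finset.mem_insert, Finset.mem_singleton] at he
  rcases he with rfl | rfl | rfl | rfl | rfl | rfl <;> simp [hab, hac, hbc, hax, hby, hcz]

lemma pre_avoid {n : ℕ} {G : SimpleGraph (Fin n)} {a b c x y z : Fin n}
    (h : Pre G a b c x y z) : ∀ e ∈ six a b c x y z, e ∉ G.edgeSet := by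
  intro e he hG
  induction e using Sym2.ind with
  | _ u v =>
    rw [SimpleGraph.mem_edgeSet] at hG
    rcases six_touch he with h1 | h1 | h1 <;> rw [Sym2.mem_iff] at h1 <;>
      rcases h1 with rfl | rfl
    · exact (h.1 v).1 hG
    · exact (h.1 u).1 hG.symm
    · exact (h.1 v).2.1 hG
    · exact (h.1 u).2.1 hG.symm
    · exact (h.1 v).2.2 hG
    · exact (h.1 u).2.2 hG.symm

lemma pre_ne {n : ℕ} {G : SimpleGraph (Fin n)} {a b c x y z : Fin n}
    (h : Pre G a b c x y z) : a ≠ x ∧ b ≠ y ∧ c ≠ z := by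
  obtain ⟨hiso, hx, hy, hz⟩ := h
  have na := isolated_not_core (G := G) (k := 3) (by norm_num) (fun w => (hiso w).1)
  have nb := isolated_not_core (G := G) (k := 3) (by norm_num) (fun w => (hiso w).2.1)
  have nc := isolated_not_core (G := G) (k := 3) (by norm_num) (fun w => (hiso w).2.2)
  exact ⟨fun h => na (h ▸ hx), fun h => nb (h ▸ hy), fun h => nc (h ▸ hz)⟩

/-- Adding six edges multiplies the weight by at least `p ^ 6`. -/
lemma weight_ge {n : ℕ} {p : ℝ} (h0 : 0 ≤ p) (h1 : p ≤ 1) {G : SimpleGraph (Fin n)}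
    {a b c x y z : Fin n} (hab : a ≠ b) (hac : a ≠ c) (hbc : b ≠ c) (h : Pre G a b c x y z) :
    p ^ 6 * gnpWeight n p G ≤
      gnpWeight n p (G ⊔ SimpleGraph.fromEdgeSet (six a b c x y z : Set (Sym2 (Fin n)))) := by
  obtain ⟨hax, hby, hcz⟩ := pre_ne h
  have key := gnpWeight_add (p := p) G (six a b c x y z) (six_pairs hab hac hbc hax hby hcz)
    (pre_avoid h)
  have w0 := gnpWeight_nonneg h0 h1 G
  have w1 := gnpWeight_nonneg h0 h1
    (G ⊔ SimpleGraph.fromEdgeSet (six a b c x y z : Set (Sym2 (Fin n))))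
  have c1 : (1 - p) ^ (six a b c x y z).card ≤ 1 := pow_le_one₀ (by linarith) (by linarith)
  have c2 : p ^ 6 ≤ p ^ (six a b c x y z).card := pow_le_pow_of_le_one h0 h1 (six_card _ _ _ _ _ _)
  calc p ^ 6 * gnpWeight n p G ≤ p ^ (six a b c x y z).card * gnpWeight n p G :=
        mul_le_mul_of_nonneg_right c2 w0
    _ = _ := key.symm
    _ ≤ 1 * _ := mul_le_mul_of_nonneg_right c1 w1
    _ = _ := one_mul _

/-- The probability of the pattern at a fixed sextuple. -/
lemma pat_prob {n : ℕ} {p : ℝ} (h0 : 0 ≤ p) (h1 : p ≤ 1) {a b c x y z : Fin n}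
    (hab : a ≠ b) (hac : a ≠ c) (hbc : b ≠ c) (hxy : x ≠ y) (hxz : x ≠ z) (hyz : y ≠ z) :
    p ^ 6 * gnpProb n p (fun G => Pre G a b c x y z) ≤
      gnpProb n p (fun G => Pat G a b c x y z) := by
  unfold gnpProb
  rw [← Finset.sum_filter, ← Finset.sum_filter, Finset.mul_sum]
  set φ : SimpleGraph (Fin n) → SimpleGraph (Fin n) :=
    fun G => G ⊔ SimpleGraph.fromEdgeSet (six a b c x y z : Set (Sym2 (Fin n))) with hφ
  have hinj : Set.InjOn φ (Finset.univ.filter (fun G => Pre G a b c x y z) :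
      Finset (SimpleGraph (Fin n))) := by
    intro G hG G2 hG2 hGG
    simp only [Finset.coe_filter, Finset.mem_univ, true_and, Set.mem_ofPred_eq] at hG hG2
    have a1 := pre_avoid hG
    have a2 := pre_avoid hG2
    ext u v
    have h2 : (φ G).Adj u v ↔ (φ G2).Adj u v := by rw [hGG]
    simp only [hφ, SimpleGraph.sup_adj, SimpleGraph.fromEdgeSet_adj, Finset.mem_coe] at h2
    constructor
    · intro h
      have h3 : s(u, v) ∉ six a b c x y z := fun h4 => a1 _ h4 ((SimpleGraph.mem_edgeSet _).2 h)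
      rcases h2.1 (Or.inl h) with h5 | h5
      · exact h5
      · exact absurd h5.1 h3
    · intro h
      have h3 : s(u, v) ∉ six a b c x y z := fun h4 => a2 _ h4 ((SimpleGraph.mem_edgeSet _).2 h)
      rcases h2.2 (Or.inl h) with h5 | h5
      · exact h5
      · exact absurd h5.1 h3
  calc ∑ G ∈ Finset.univ.filter (fun G => Pre G a b c x y z), p ^ 6 * gnpWeight n p G
      ≤ ∑ G ∈ Finset.univ.filter (fun G => Pre G a b c x y z), gnpWeight n p (φ G) := by
        refine Finset.sum_le_sum (fun G hG => ?_)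
        exact weight_ge h0 h1 hab hac hbc (Finset.mem_filter.1 hG).2
    _ = ∑ H ∈ (Finset.univ.filter (fun G => Pre G a b c x y z)).image φ, gnpWeight n p H := by
        rw [Finset.sum_image hinj]
    _ ≤ ∑ H ∈ Finset.univ.filter (fun G => Pat G a b c x y z), gnpWeight n p H := by
        refine Finset.sum_le_sum_of_subset_of_nonneg ?_ (fun H _ _ => gnpWeight_nonneg h0 h1 H)
        intro H hH
        rw [Finset.mem_image] at hH
        obtain ⟨G, hG, rfl⟩ := hH
        rw [Finset.mem_filter]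
        exact ⟨Finset.mem_univ _, pat_of_pre hab hac hbc hxy hxz hyz (Finset.mem_filter.1 hG).2⟩

/-- The distinct triples in a set. -/
noncomputable def dtr {n : ℕ} (K : Finset (Fin n)) : Finset (Fin n × Fin n × Fin n) :=
  (K ×ˢ K ×ˢ K).filter (fun t => t.1 ≠ t.2.1 ∧ t.1 ≠ t.2.2 ∧ t.2.1 ≠ t.2.2)

lemma dtr_card {n : ℕ} (K : Finset (Fin n)) :
    K.card ^ 3 ≤ (dtr K).card + 3 * K.card ^ 2 := by
  have h1 : (K ×ˢ K ×ˢ K).card = K.card ^ 3 := by
    simp [Finset.card_product]; ring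
  have h2 : (K ×ˢ K ×ˢ K) ⊆ dtr K ∪ ((K ×ˢ K).image (fun t => (t.1, t.1, t.2)) ∪
      ((K ×ˢ K).image (fun t => (t.1, t.2, t.1)) ∪ (K ×ˢ K).image (fun t => (t.1, t.2, t.2)))) := by
    rintro ⟨u, v, w⟩ h
    simp only [Finset.mem_product] at h
    simp only [dtr, Finset.mem_union, Finset.mem_filter, Finset.mem_product, Finset.mem_image,
      Prod.mk.injEq, Prod.exists]
    by_cases huv : u = v
    · subst huv; right; left; exact ⟨u, w, ⟨h.1, h.2.2⟩, rfl, rfl, rfl⟩
    by_cases huw : u = w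
    · subst huw; right; right; left; exact ⟨u, v, ⟨h.1, h.2.1⟩, rfl, rfl, rfl⟩
    by_cases hvw : v = w
    · subst hvw; right; right; right; exact ⟨u, v, ⟨h.1, h.2.1⟩, rfl, rfl, rfl⟩
    left; exact ⟨h, huv, huw, hvw⟩
  have h3 := Finset.card_le_card h2
  rw [h1] at h3
  have c1 : ((K ×ˢ K).image (fun t => (t.1, t.1, t.2))).card ≤ K.card ^ 2 := by
    refine Finset.card_image_le.trans ?_
    rw [Finset.card_product, sq]
  have c2 : ((K ×ˢ K).image (fun t => (t.1, t.2, t.1))).card ≤ K.card ^ 2 := by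
    refine Finset.card_image_le.trans ?_
    rw [Finset.card_product, sq]
  have c3 : ((K ×ˢ K).image (fun t => (t.1, t.2, t.2))).card ≤ K.card ^ 2 := by
    refine Finset.card_image_le.trans ?_
    rw [Finset.card_product, sq]
  have u1 := Finset.card_union_le (dtr K) ((K ×ˢ K).image (fun t => (t.1, t.1, t.2)) ∪
      ((K ×ˢ K).image (fun t => (t.1, t.2, t.1)) ∪ (K ×ˢ K).image (fun t => (t.1, t.2, t.2))))
  have u2 := Finset.card_union_le ((K ×ˢ K).image (fun t => (t.1, t.1, t.2)))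
      ((K ×ˢ K).image (fun t => (t.1, t.2, t.1)) ∪ (K ×ˢ K).image (fun t => (t.1, t.2, t.2)))
  have u3 := Finset.card_union_le ((K ×ˢ K).image (fun t => (t.1, t.2, t.1)))
      ((K ×ˢ K).image (fun t => (t.1, t.2, t.2)))
  omega

end Pool.Agent.H42.RG
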