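import Pool.Agent.H42.RG.First

/-!
# First moment, II
-/

set_option autoImplicit false

open Classical

namespace Pool.Agent.H42.RG

lemma pat_unique {V : Type*} {G : SimpleGraph V} {a b c x y z x' y' z' : V}
    (h : Pat G a b c x y z) (h' : Pat G a b c x' y' z') : x = x' ∧ y = y' ∧ z = z' := by
  obtain ⟨_, _, ⟨⟨hax, hay, haz⟩, ⟨hbx, hby, hbz⟩, ⟨hcx, hcy, hcz⟩⟩, Na, Nb, Nc, _, _⟩ := h
  obtain ⟨_, _, _, Na', Nb', Nc', _, _⟩ := h'
  refine ⟨?_, ?_, ?_⟩
  · rcases (Na' x).1 ((Na x).2 (by simp)) with h | h | h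
    · exact absurd h.symm hbx
    · exact absurd h.symm hcx
    · exact h
  · rcases (Nb' y).1 ((Nb y).2 (by simp)) with h | h | h
    · exact absurd h.symm hay
    · exact absurd h.symm hcy
    · exact h
  · rcases (Nc' z).1 ((Nc z).2 (by simp)) with h | h | h
    · exact absurd h.symm haz
    · exact absurd h.symm hbz
    · exact h

/-- Isolation of `a`, `b`, `c`. -/
def Iso3 {V : Type*} (G : SimpleGraph V) (a b c : V) : Prop :=
  ∀ w, ¬ G.Adj a w ∧ ¬ G.Adj b w ∧ ¬ G.Adj c w

lemma good_prob {n : ℕ} {p : ℝ} (h0 : 0 ≤ p) (h1 : p ≤ 1) {a b c : Fin n}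
    (hab : a ≠ b) (hac : a ≠ c) (hbc : b ≠ c) (K : ℕ) (hK : 3 ≤ K) :
    p ^ 6 * ((K : ℝ) ^ 2 * (K - 3)) *
      gnpProb n p (fun G => Iso3 G a b c ∧ K ≤ (coreSet G 3).ncard) ≤
      gnpProb n p (fun G => ∃ x y z, Pat G a b c x y z) := by
  set D := dtr (Finset.univ : Finset (Fin n)) with hD
  have up : ∑ t ∈ D, gnpProb n p (fun G => Pat G a b c t.1 t.2.1 t.2.2) ≤
      gnpProb n p (fun G => ∃ x y z, Pat G a b c x y z) := by
    unfold gnpProb
    rw [Finset.sum_comm]
    refine Finset.sum_le_sum (fun G _ => ?_)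
    have w0 := gnpWeight_nonneg h0 h1 G
    by_cases hex : ∃ x y z, Pat G a b c x y z
    · rw [if_pos hex]
      obtain ⟨x, y, z, hP⟩ := hex
      have : ∑ t ∈ D, (if Pat G a b c t.1 t.2.1 t.2.2 then gnpWeight n p G else 0)
          ≤ ∑ t ∈ D, (if t = (x, y, z) then gnpWeight n p G else 0) := by
        refine Finset.sum_le_sum (fun t _ => ?_)
        by_cases hPt : Pat G a b c t.1 t.2.1 t.2.2
        · obtain ⟨e1, e2, e3⟩ := pat_unique hPt hP
          have : t = (x, y, z) := by
            rw [← e1, ← e2, ← e3]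
          rw [if_pos hPt, if_pos this]
        · rw [if_neg hPt]
          split_ifs
          · exact w0
          · exact le_rfl
      refine this.trans ?_
      rw [Finset.sum_ite_eq']
      split_ifs
      · exact le_rfl
      · exact w0
    · rw [if_neg hex]
      apply le_of_eq
      apply Finset.sum_eq_zero
      intro t _
      rw [if_neg]
      exact fun h => hex ⟨_, _, _, h⟩
  have low : ((K : ℝ) ^ 2 * (K - 3)) *
      gnpProb n p (fun G => Iso3 G a b c ∧ K ≤ (coreSet G 3).ncard) ≤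
      ∑ t ∈ D, gnpProb n p (fun G => Pre G a b c t.1 t.2.1 t.2.2) := by
    unfold gnpProb
    rw [Finset.sum_comm, Finset.mul_sum]
    refine Finset.sum_le_sum (fun G _ => ?_)
    have w0 := gnpWeight_nonneg h0 h1 G
    split_ifs with hG
    · obtain ⟨hiso, hcard⟩ := hG
      have h2 : ∑ t ∈ D, (if Pre G a b c t.1 t.2.1 t.2.2 then gnpWeight n p G else 0)
          = ((dtr (coreSet G 3).toFinset).card : ℝ) * gnpWeight n p G := by
        rw [← Finset.sum_filter, Finset.sum_const, nsmul_eq_mul]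
        congr 2
        congr 1
        ext ⟨u, v, w⟩
        simp only [hD, dtr, Pre, Finset.mem_filter, Finset.mem_product, Finset.mem_univ,
          true_and, Set.mem_toFinset]
        constructor
        · rintro ⟨hd, _, hm⟩; exact ⟨hm, hd⟩
        · rintro ⟨hm, hd⟩; exact ⟨hd, hiso, hm⟩
      rw [h2]
      refine mul_le_mul_of_nonneg_right ?_ w0
      have h3 := dtr_card (coreSet G 3).toFinset
      rw [Set.ncard_eq_toFinset_card'] at hcard
      set k := (coreSet G 3).toFinset.card with hk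
      have h4 : ((k : ℝ)) ^ 3 ≤ ((dtr (coreSet G 3).toFinset).card : ℝ) + 3 * (k : ℝ) ^ 2 := by
        exact_mod_cast h3
      have h5 : (K : ℝ) ≤ k := by exact_mod_cast hcard
      have h6 : (3 : ℝ) ≤ K := by exact_mod_cast hK
      have h7 : (K : ℝ) ^ 2 * (K - 3) ≤ (k : ℝ) ^ 2 * (k - 3) := by
        apply mul_le_mul
        · exact pow_le_pow_left₀ (by linarith) h5 2
        · linarith
        · linarith
        · positivity
      linarith
    · rw [mul_zero]
      apply Finset.sum_nonneg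
      intro t _
      split_ifs
      · exact w0
      · exact le_rfl
  calc p ^ 6 * ((K : ℝ) ^ 2 * (K - 3)) *
      gnpProb n p (fun G => Iso3 G a b c ∧ K ≤ (coreSet G 3).ncard)
      = p ^ 6 * (((K : ℝ) ^ 2 * (K - 3)) *
      gnpProb n p (fun G => Iso3 G a b c ∧ K ≤ (coreSet G 3).ncard)) := by ring
    _ ≤ p ^ 6 * ∑ t ∈ D, gnpProb n p (fun G => Pre G a b c t.1 t.2.1 t.2.2) :=
        mul_le_mul_of_nonneg_left low (by positivity)
    _ = ∑ t ∈ D, p ^ 6 * gnpProb n p (fun G => Pre G a b c t.1 t.2.1 t.2.2) := by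
        rw [Finset.mul_sum]
    _ ≤ ∑ t ∈ D, gnpProb n p (fun G => Pat G a b c t.1 t.2.1 t.2.2) := by
        refine Finset.sum_le_sum (fun t ht => ?_)
        simp only [hD, dtr, Finset.mem_filter] at ht
        exact pat_prob h0 h1 hab hac hbc ht.2.1 ht.2.2.1 ht.2.2.2
    _ ≤ _ := up

/-- The probability that three given vertices are isolated. -/
lemma iso_prob {n : ℕ} {p : ℝ} (h0 : 0 ≤ p) (h1 : p ≤ 1) (a b c : Fin n) :
    (1 - p) ^ (3 * n) ≤ gnpProb n p (fun G => Iso3 G a b c) := by
  set F : Finset (Sym2 (Fin n)) := (pairs n).filter (fun e => a ∈ e ∨ b ∈ e ∨ c ∈ e) with hF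
  have hsub : F ⊆ pairs n := Finset.filter_subset _ _
  have hcard : F.card ≤ 3 * n := by
    have h2 : F ⊆ (Finset.univ.image (fun w => s(a, w))) ∪ ((Finset.univ.image (fun w => s(b, w)))
        ∪ (Finset.univ.image (fun w => s(c, w)))) := by
      intro e he
      simp only [hF, Finset.mem_filter] at he
      obtain ⟨_, he⟩ := he
      simp only [Finset.mem_union, Finset.mem_image, Finset.mem_univ, true_and]
      rcases he with he | he | he
      · left; obtain ⟨w, hw⟩ := (Sym2.mem_iff_exists).1 he; exact ⟨w, hw.symm⟩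
      · right; left; obtain ⟨w, hw⟩ := (Sym2.mem_iff_exists).1 he; exact ⟨w, hw.symm⟩
      · right; right; obtain ⟨w, hw⟩ := (Sym2.mem_iff_exists).1 he; exact ⟨w, hw.symm⟩
    have h3 := Finset.card_le_card h2
    have h4 : ∀ v : Fin n, (Finset.univ.image (fun w => s(v, w))).card ≤ n := by
      intro v
      refine Finset.card_image_le.trans ?_
      simp
    have u1 := Finset.card_union_le (Finset.univ.image (fun w => s(a, w)))
      ((Finset.univ.image (fun w => s(b, w))) ∪ (Finset.univ.image (fun w => s(c, w))))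
    have u2 := Finset.card_union_le (Finset.univ.image (fun w => s(b, w)))
      (Finset.univ.image (fun w => s(c, w)))
    have := h4 a
    have := h4 b
    have := h4 c
    omega
  calc (1 - p) ^ (3 * n) ≤ (1 - p) ^ F.card :=
        pow_le_pow_of_le_one (by linarith) (by linarith) hcard
    _ = gnpProb n p (fun G => ∀ e ∈ F, e ∉ G.edgeSet) := (gnpProb_avoids n p F hsub).symm
    _ ≤ _ := by
        apply gnpProb_mono h0 h1
        intro G hG w
        have key : ∀ v : Fin n, (v = a ∨ v = b ∨ v = c) → ¬ G.Adj v w := by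
          intro v hv hadj
          refine hG s(v, w) ?_ ((SimpleGraph.mem_edgeSet _).2 hadj)
          simp only [hF, Finset.mem_filter, mem_pairs]
          refine ⟨by simpa using hadj.ne, ?_⟩
          rcases hv with rfl | rfl | rfl <;> simp
        exact ⟨key a (by simp), key b (by simp), key c (by simp)⟩

/-- First moment bound for a fixed triple. -/
lemma triple_prob {n : ℕ} {p : ℝ} (h0 : 0 ≤ p) (h1 : p ≤ 1) {a b c : Fin n}
    (hab : a ≠ b) (hac : a ≠ c) (hbc : b ≠ c) (K : ℕ) (hK : 3 ≤ K) :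
    p ^ 6 * ((K : ℝ) ^ 2 * (K - 3)) *
      ((1 - p) ^ (3 * n) - (1 - gnpProb n p (fun G => K ≤ (coreSet G 3).ncard))) ≤
      gnpProb n p (fun G => ∃ x y z, Pat G a b c x y z) := by
  refine le_trans ?_ (good_prob h0 h1 hab hac hbc K hK)
  have hK' : (3 : ℝ) ≤ K := by exact_mod_cast hK
  have hn : 0 ≤ p ^ 6 * ((K : ℝ) ^ 2 * (K - 3)) := by
    have : (0 : ℝ) ≤ K - 3 := by linarith
    positivity
  refine mul_le_mul_of_nonneg_left ?_ hn
  have := gnpProb_and_ge h0 h1 (fun G => Iso3 G a b c) (fun G => K ≤ (coreSet G 3).ncard)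
  have := iso_prob h0 h1 a b c
  linarith

end Pool.Agent.H42.RG
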