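import Mathlib

/-!
# The binomial random graph as a finite weighted sum
-/

set_option autoImplicit false

open Classical

namespace Pool.Agent.H42.RG

/-- The pairs of distinct vertices. -/
noncomputable def pairs (n : ℕ) : Finset (Sym2 (Fin n)) :=
  Finset.univ.filter (fun e => ¬ e.IsDiag)

/-- The probability of the graph `G` in the binomial random graph `G(n, p)`: every pair of distinct
vertices is an edge independently with probability `p`. -/
noncomputable def gnpWeight (n : ℕ) (p : ℝ) (G : SimpleGraph (Fin n)) : ℝ :=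
  ∏ e ∈ pairs n, if e ∈ G.edgeSet then p else 1 - p

/-- The probability of the event `Ev` in the binomial random graph `G(n, p)`. -/
noncomputable def gnpProb (n : ℕ) (p : ℝ) (Ev : SimpleGraph (Fin n) → Prop) : ℝ :=
  ∑ G : SimpleGraph (Fin n), if Ev G then gnpWeight n p G else 0

lemma mem_pairs {n : ℕ} {e : Sym2 (Fin n)} : e ∈ pairs n ↔ ¬ e.IsDiag := by
  simp [pairs]

lemma sum_graphs (n : ℕ) (φ : SimpleGraph (Fin n) → ℝ) :
    ∑ G : SimpleGraph (Fin n), φ G
      = ∑ S ∈ (pairs n).powerset, φ (SimpleGraph.fromEdgeSet (S : Set (Sym2 (Fin n)))) := by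
  refine Finset.sum_bij' (fun G _ => G.edgeFinset)
    (fun S _ => SimpleGraph.fromEdgeSet (S : Set (Sym2 (Fin n)))) ?_ ?_ ?_ ?_ ?_
  · intro G _
    rw [Finset.mem_powerset]
    intro e he
    rw [SimpleGraph.mem_edgeFinset] at he
    exact mem_pairs.2 (G.not_isDiag_of_mem_edgeSet he)
  · intro S _
    exact Finset.mem_univ _
  · intro G _
    simp
  · intro S hS
    rw [Finset.mem_powerset] at hS
    ext e
    simp only [SimpleGraph.mem_edgeFinset, SimpleGraph.edgeSet_fromEdgeSet, Set.mem_sdiff,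
      Finset.mem_coe]
    constructor
    · exact fun h => h.1
    · exact fun h => ⟨h, mem_pairs.1 (hS h)⟩
  · intro G _
    simp

/-- The product formula. -/
lemma sum_prod (n : ℕ) (α β : Sym2 (Fin n) → ℝ) :
    ∑ G : SimpleGraph (Fin n), ∏ e ∈ pairs n, (if e ∈ G.edgeSet then α e else β e)
      = ∏ e ∈ pairs n, (α e + β e) := by
  rw [sum_graphs, Finset.prod_add]
  refine Finset.sum_congr rfl (fun S hS => ?_)
  rw [Finset.mem_powerset] at hS
  rw [← Finset.prod_sdiff hS, mul_comm]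
  congr 1
  · refine Finset.prod_congr rfl (fun e he => ?_)
    rw [if_pos]
    simp only [SimpleGraph.edgeSet_fromEdgeSet, Set.mem_sdiff, Finset.mem_coe]
    exact ⟨he, mem_pairs.1 (hS he)⟩
  · refine Finset.prod_congr rfl (fun e he => ?_)
    rw [if_neg]
    simp only [SimpleGraph.edgeSet_fromEdgeSet, Set.mem_sdiff, Finset.mem_coe, not_and]
    intro h
    exact absurd h (Finset.mem_sdiff.1 he).2

lemma gnpProb_true (n : ℕ) (p : ℝ) : gnpProb n p (fun _ => True) = 1 := by
  unfold gnpProb gnpWeight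
  simp only [if_true]
  rw [sum_prod n (fun _ => p) (fun _ => 1 - p)]
  simp

lemma gnpProb_contains (n : ℕ) (p : ℝ) (F : Finset (Sym2 (Fin n))) (hF : F ⊆ pairs n) :
    gnpProb n p (fun G => ∀ e ∈ F, e ∈ G.edgeSet) = p ^ F.card := by
  have h := sum_prod n (fun _ => p) (fun e => if e ∈ F then 0 else 1 - p)
  have h2 : ∏ e ∈ pairs n, (p + (if e ∈ F then 0 else 1 - p)) = p ^ F.card := by
    rw [← Finset.prod_sdiff hF]
    rw [Finset.prod_eq_one, one_mul]
    · rw [Finset.prod_congr rfl (g := fun _ => p)]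
      · simp
      · intro e he; simp [he]
    · intro e he
      simp [(Finset.mem_sdiff.1 he).2]
  rw [h2] at h
  rw [← h]
  unfold gnpProb gnpWeight
  refine Finset.sum_congr rfl (fun G _ => ?_)
  split_ifs with hG
  · refine Finset.prod_congr rfl (fun e he => ?_)
    by_cases h1 : e ∈ G.edgeSet
    · simp [h1]
    · have : e ∉ F := fun h => h1 (hG e h)
      simp [h1, this]
  · push Not at hG
    obtain ⟨e, he, he2⟩ := hG
    symm
    apply Finset.prod_eq_zero (hF he)
    simp [he, he2]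

lemma gnpProb_avoids (n : ℕ) (p : ℝ) (F : Finset (Sym2 (Fin n))) (hF : F ⊆ pairs n) :
    gnpProb n p (fun G => ∀ e ∈ F, e ∉ G.edgeSet) = (1 - p) ^ F.card := by
  have h := sum_prod n (fun e => if e ∈ F then 0 else p) (fun _ => 1 - p)
  have h2 : ∏ e ∈ pairs n, ((if e ∈ F then 0 else p) + (1 - p)) = (1 - p) ^ F.card := by
    rw [← Finset.prod_sdiff hF]
    rw [Finset.prod_eq_one, one_mul]
    · rw [Finset.prod_congr rfl (g := fun _ => 1 - p)]
      · simp
      · intro e he; simp [he]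
    · intro e he
      simp [(Finset.mem_sdiff.1 he).2]
  rw [h2] at h
  rw [← h]
  unfold gnpProb gnpWeight
  refine Finset.sum_congr rfl (fun G _ => ?_)
  split_ifs with hG
  · refine Finset.prod_congr rfl (fun e he => ?_)
    by_cases h1 : e ∈ G.edgeSet
    · have : e ∉ F := fun h => hG e h h1
      simp [h1, this]
    · simp [h1]
  · push Not at hG
    obtain ⟨e, he, he2⟩ := hG
    symm
    apply Finset.prod_eq_zero (hF he)
    simp [he, he2]

lemma gnpWeight_nonneg {n : ℕ} {p : ℝ} (h0 : 0 ≤ p) (h1 : p ≤ 1) (G : SimpleGraph (Fin n)) :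
    0 ≤ gnpWeight n p G := by
  unfold gnpWeight
  apply Finset.prod_nonneg
  intro e _
  split_ifs <;> linarith

lemma gnpProb_mono {n : ℕ} {p : ℝ} (h0 : 0 ≤ p) (h1 : p ≤ 1) {A B : SimpleGraph (Fin n) → Prop}
    (h : ∀ G, A G → B G) : gnpProb n p A ≤ gnpProb n p B := by
  unfold gnpProb
  refine Finset.sum_le_sum (fun G _ => ?_)
  by_cases hA : A G
  · rw [if_pos hA, if_pos (h G hA)]
  · rw [if_neg hA]
    split_ifs
    · exact gnpWeight_nonneg h0 h1 G
    · exact le_rfl

lemma gnpProb_add_not {n : ℕ} {p : ℝ} (A : SimpleGraph (Fin n) → Prop) :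
    gnpProb n p A + gnpProb n p (fun G => ¬ A G) = 1 := by
  rw [← gnpProb_true n p]
  unfold gnpProb
  rw [← Finset.sum_add_distrib]
  refine Finset.sum_congr rfl (fun G _ => ?_)
  by_cases hA : A G <;> simp [hA]

/-- `P(A and B) ≥ P(A) - P(not B)`. -/
lemma gnpProb_and_ge {n : ℕ} {p : ℝ} (h0 : 0 ≤ p) (h1 : p ≤ 1) (A B : SimpleGraph (Fin n) → Prop) :
    gnpProb n p A - (1 - gnpProb n p B) ≤ gnpProb n p (fun G => A G ∧ B G) := by
  have hB := gnpProb_add_not (n := n) (p := p) B
  have : gnpProb n p A ≤ gnpProb n p (fun G => A G ∧ B G) + gnpProb n p (fun G => ¬ B G) := by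
    unfold gnpProb
    rw [← Finset.sum_add_distrib]
    refine Finset.sum_le_sum (fun G _ => ?_)
    have := gnpWeight_nonneg h0 h1 G
    by_cases hA : A G <;> by_cases hB : B G <;> simp [hA, hB] <;> assumption
  linarith

/-- The weight after adding the absent edges `F`. -/
lemma gnpWeight_add' {n : ℕ} {p : ℝ} (G H : SimpleGraph (Fin n)) (F : Finset (Sym2 (Fin n)))
    (hF : F ⊆ pairs n) (hG : ∀ e ∈ F, e ∉ G.edgeSet) (hH : ∀ e ∈ F, e ∈ H.edgeSet)
    (hGH : ∀ e, e ∉ F → (e ∈ H.edgeSet ↔ e ∈ G.edgeSet)) :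
    (1 - p) ^ F.card * gnpWeight n p H = p ^ F.card * gnpWeight n p G := by
  unfold gnpWeight
  rw [← Finset.prod_sdiff hF, ← Finset.prod_sdiff hF]
  have e1 : ∏ e ∈ pairs n \ F, (if e ∈ H.edgeSet then p else 1 - p)
      = ∏ e ∈ pairs n \ F, (if e ∈ G.edgeSet then p else 1 - p) := by
    refine Finset.prod_congr rfl (fun e he => ?_)
    have : e ∉ F := (Finset.mem_sdiff.1 he).2
    simp [hGH e this]
  have e2 : ∏ e ∈ F, (if e ∈ H.edgeSet then p else 1 - p) = p ^ F.card := by
    rw [← Finset.prod_const]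
    refine Finset.prod_congr rfl (fun e he => ?_)
    simp [hH e he]
  have e3 : ∏ e ∈ F, (if e ∈ G.edgeSet then p else 1 - p) = (1 - p) ^ F.card := by
    rw [← Finset.prod_const]
    refine Finset.prod_congr rfl (fun e he => ?_)
    simp [hG e he]
  rw [e1, e2, e3]
  ring

lemma gnpWeight_add {n : ℕ} {p : ℝ} (G : SimpleGraph (Fin n)) (F : Finset (Sym2 (Fin n)))
    (hF : F ⊆ pairs n) (hG : ∀ e ∈ F, e ∉ G.edgeSet) :
    (1 - p) ^ F.card * gnpWeight n p (G ⊔ SimpleGraph.fromEdgeSet (F : Set (Sym2 (Fin n))))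
      = p ^ F.card * gnpWeight n p G := by
  apply gnpWeight_add' G _ F hF hG
  · intro e he
    have := mem_pairs.1 (hF he)
    simp [this, he]
  · intro e he
    simp [he]

end Pool.Agent.H42.RG
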