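import Pool.Agent.H42.RG.Moment

/-!
# Good triangles exist with probability bounded below
-/

set_option autoImplicit false

open Classical

namespace Pool.Agent.H42.RG

/-- All triples. -/
noncomputable def triples (n : ℕ) : Finset (Finset (Fin n)) := Finset.univ.powersetCard 3

lemma triples_card (n : ℕ) : (triples n).card = n.choose 3 := by
  simp [triples]

lemma second_moment {n : ℕ} {p : ℝ} (h0 : 0 ≤ p) (h1 : p ≤ 1) :
    ∑ t ∈ triples n, ∑ t' ∈ triples n, gnpProb n p (fun G => Good G t ∧ Good G t')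
      ≤ (n.choose 3 : ℝ) * p ^ 3 + (n.choose 3 : ℝ) ^ 2 * p ^ 6 := by
  have key : ∀ t ∈ triples n, ∑ t' ∈ triples n, gnpProb n p (fun G => Good G t ∧ Good G t')
      ≤ p ^ 3 + (n.choose 3 : ℝ) * p ^ 6 := by
    intro t ht
    have ht3 : t.card = 3 := (Finset.mem_powersetCard.1 ht).2
    calc ∑ t' ∈ triples n, gnpProb n p (fun G => Good G t ∧ Good G t')
        ≤ ∑ t' ∈ triples n, ((if t' = t then p ^ 3 else 0) + p ^ 6) := by
          refine Finset.sum_le_sum (fun t' ht' => ?_)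
          have ht3' : t'.card = 3 := (Finset.mem_powersetCard.1 ht').2
          by_cases h : t' = t
          · rw [if_pos h]
            have := single_bound h0 h1 ht3
            have h2 : gnpProb n p (fun G => Good G t ∧ Good G t') ≤ gnpProb n p
              (fun G => Good G t) := gnpProb_mono h0 h1 (fun G hG => hG.1)
            have : (0 : ℝ) ≤ p ^ 6 := by positivity
            linarith
          · rw [if_neg h, zero_add]
            exact pair_bound h0 h1 ht3 ht3' (Ne.symm h)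
      _ = p ^ 3 + (n.choose 3 : ℝ) * p ^ 6 := by
          rw [Finset.sum_add_distrib, Finset.sum_ite_eq', if_pos ht, Finset.sum_const,
            triples_card, nsmul_eq_mul]
  calc _ ≤ ∑ t ∈ triples n, (p ^ 3 + (n.choose 3 : ℝ) * p ^ 6) := Finset.sum_le_sum key
    _ = _ := by
      rw [Finset.sum_const, triples_card, nsmul_eq_mul]
      ring

lemma first_moment {n : ℕ} {p : ℝ} (h0 : 0 ≤ p) (h1 : p ≤ 1) (K : ℕ) (hK : 3 ≤ K) :
    (n.choose 3 : ℝ) * (p ^ 6 * ((K : ℝ) ^ 2 * (K - 3)) *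
      ((1 - p) ^ (3 * n) - (1 - gnpProb n p (fun G => K ≤ (coreSet G 3).ncard)))) ≤
      ∑ t ∈ triples n, gnpProb n p (fun G => Good G t) := by
  rw [← triples_card, ← nsmul_eq_mul, ← Finset.sum_const]
  refine Finset.sum_le_sum (fun t ht => ?_)
  obtain ⟨a, b, c, hab, hac, hbc, rfl⟩ := Finset.card_eq_three.1 (Finset.mem_powersetCard.1 ht).2
  refine (triple_prob h0 h1 hab hac hbc K hK).trans (gnpProb_mono h0 h1 (fun G hG => ?_))
  obtain ⟨x, y, z, hP⟩ := hG
  refine ⟨a, b, c, x, y, z, ?_, hP⟩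
  ext v; simp

lemma one_sub_ge_exp {p : ℝ} (h0 : 0 ≤ p) (h1 : p ≤ 1 / 2) : Real.exp (-(2 * p)) ≤ 1 - p := by
  have h2 : 1 + 2 * p ≤ Real.exp (2 * p) := by
    have := Real.add_one_le_exp (2 * p); linarith
  have h3 : 0 < Real.exp (2 * p) := Real.exp_pos _
  rw [Real.exp_neg, inv_le_iff_one_le_mul₀ h3]
  nlinarith

/-- The lower bound for the probability of a good triangle. -/
lemma good_lower {c ε : ℝ} (hc : 0 < c) (hε : 0 < ε) {n : ℕ} (hn4 : 4 ≤ n)
    (hnc : 2 * c ≤ n) (hnε : 6 ≤ ε * n)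
    (hP : 1 - Real.exp (-(6 * c)) / 2 ≤
      gnpProb n (c / n) (fun G => ε * n ≤ ((coreSet G 3).ncard : ℝ))) :
    (c ^ 6 * ε ^ 3 * Real.exp (-(6 * c)) / 192) ^ 2 / (c ^ 3 + c ^ 6) ≤
      gnpProb n (c / n) (fun G => ∃ t ∈ triples n, Good G t) := by
  have hn0 : (0 : ℝ) < n := by
    have : (4 : ℝ) ≤ n := by exact_mod_cast hn4
    linarith
  have hn4' : (4 : ℝ) ≤ n := by exact_mod_cast hn4
  set p : ℝ := c / n with hp
  have h0 : 0 ≤ p := by positivity
  have hhalf : p ≤ 1 / 2 := by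
    rw [hp, div_le_iff₀ hn0]; linarith
  have h1 : p ≤ 1 := by linarith
  have hpn : p * n = c := by rw [hp]; field_simp
  set K : ℕ := ⌈ε * n⌉₊ with hKdef
  have hKge : ε * n ≤ (K : ℝ) := Nat.le_ceil _
  have hK3 : 3 ≤ K := by
    have : (3 : ℝ) ≤ K := by linarith
    exact_mod_cast this
  have hPK : gnpProb n p (fun G => ε * n ≤ ((coreSet G 3).ncard : ℝ))
      = gnpProb n p (fun G => K ≤ (coreSet G 3).ncard) := by
    unfold gnpProb
    refine Finset.sum_congr rfl (fun G _ => ?_)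
    have : (ε * n ≤ ((coreSet G 3).ncard : ℝ)) ↔ K ≤ (coreSet G 3).ncard := by
      rw [hKdef, Nat.ceil_le]
    by_cases h : K ≤ (coreSet G 3).ncard
    · rw [if_pos (this.2 h), if_pos h]
    · rw [if_neg (fun h2 => h (this.1 h2)), if_neg h]
  rw [hPK] at hP
  have hiso : Real.exp (-(6 * c)) ≤ (1 - p) ^ (3 * n) := by
    have := one_sub_ge_exp h0 hhalf
    calc Real.exp (-(6 * c)) = Real.exp (-(2 * p)) ^ (3 * n) := by
          rw [← Real.exp_nat_mul]
          congr 1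
          push_cast
          rw [← hpn]; ring
      _ ≤ _ := pow_le_pow_left₀ (Real.exp_pos _).le this _
  have hfm := first_moment h0 h1 K hK3 (n := n)
  have hsm := second_moment h0 h1 (n := n)
  have hcs := cauchy h0 h1 (triples n) (fun t G => Good G t)
  set m : ℝ := (n.choose 3 : ℝ) with hm
  set E : ℝ := Real.exp (-(6 * c)) with hE
  have hEpos : 0 < E := Real.exp_pos _
  have hmlow : (n : ℝ) ^ 3 / 48 ≤ m := by
    have h := Nat.pow_le_choose (α := ℝ) 3 n
    have h2 : ((n + 1 - 3 : ℕ) : ℝ) = n - 2 := by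
      rw [Nat.cast_sub (by omega)]; push_cast; ring
    rw [h2] at h
    have h3 : ((Nat.factorial 3 : ℕ) : ℝ) = 6 := by norm_num [Nat.factorial]
    rw [h3] at h
    refine le_trans ?_ h
    have h4 : (n : ℝ) / 2 ≤ n - 2 := by linarith
    have h5 : ((n : ℝ) / 2) ^ 3 ≤ ((n : ℝ) - 2) ^ 3 := pow_le_pow_left₀ (by positivity) h4 3
    have h6 : ((n : ℝ) / 2) ^ 3 = (n : ℝ) ^ 3 / 8 := by ring
    rw [h6] at h5
    linarith
  have hmup : m ≤ (n : ℝ) ^ 3 := by
    have := Nat.choose_le_pow n 3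
    rw [hm]
    exact_mod_cast this
  have hm0 : 0 ≤ m := by positivity
  set S : ℝ := ∑ t ∈ triples n, gnpProb n p (fun G => Good G t) with hS
  set P : ℝ := gnpProb n p (fun G => ∃ t ∈ triples n, Good G t) with hPdef
  have hP0 : 0 ≤ P := by
    rw [hPdef]; unfold gnpProb
    apply Finset.sum_nonneg
    intro G _
    split_ifs
    · exact gnpWeight_nonneg h0 h1 G
    · exact le_rfl
  -- lower bound of the first moment
  have hSlow : c ^ 6 * ε ^ 3 * E / 192 ≤ S := by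
    refine le_trans ?_ hfm
    have a1 : E / 2 ≤ (1 - p) ^ (3 * n) - (1 - gnpProb n p (fun G => K ≤ (coreSet G 3).ncard)) := by
      linarith
    have a2 : (ε * n) ^ 2 * (ε * n / 2) ≤ (K : ℝ) ^ 2 * (K - 3) := by
      apply mul_le_mul
      · exact pow_le_pow_left₀ (by positivity) hKge 2
      · linarith
      · positivity
      · positivity
    have a3 : (n : ℝ) ^ 3 / 48 * (p ^ 6 * ((ε * n) ^ 2 * (ε * n / 2)) * (E / 2)) ≤
        m * (p ^ 6 * ((K : ℝ) ^ 2 * (K - 3)) *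
          ((1 - p) ^ (3 * n) - (1 - gnpProb n p (fun G => K ≤ (coreSet G 3).ncard)))) := by
      apply mul_le_mul hmlow _ (by positivity) hm0
      apply mul_le_mul _ a1 (by positivity)
      · have : (0 : ℝ) ≤ (ε * n) ^ 2 * (ε * n / 2) := by positivity
        have : (0 : ℝ) ≤ (K : ℝ) ^ 2 * (K - 3) := this.trans a2
        positivity
      · exact mul_le_mul_of_nonneg_left a2 (by positivity)
    refine le_trans (le_of_eq ?_) a3
    have : (n : ℝ) ^ 3 / 48 * (p ^ 6 * ((ε * n) ^ 2 * (ε * n / 2)) * (E / 2))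
        = (p * n) ^ 6 * ε ^ 3 * E / 192 := by ring
    rw [this, hpn]
  have hden : m * p ^ 3 + m ^ 2 * p ^ 6 ≤ c ^ 3 + c ^ 6 := by
    have b1 : m * p ^ 3 ≤ (n : ℝ) ^ 3 * p ^ 3 := mul_le_mul_of_nonneg_right hmup (by positivity)
    have b2 : m ^ 2 * p ^ 6 ≤ ((n : ℝ) ^ 3) ^ 2 * p ^ 6 :=
      mul_le_mul_of_nonneg_right (pow_le_pow_left₀ hm0 hmup 2) (by positivity)
    have b3 : (n : ℝ) ^ 3 * p ^ 3 = (p * n) ^ 3 := by ring
    have b4 : ((n : ℝ) ^ 3) ^ 2 * p ^ 6 = (p * n) ^ 6 := by ring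
    rw [hpn] at b3 b4
    linarith
  rw [div_le_iff₀ (by positivity)]
  calc (c ^ 6 * ε ^ 3 * E / 192) ^ 2 ≤ S ^ 2 := pow_le_pow_left₀ (by positivity) hSlow 2
    _ ≤ P * ∑ t ∈ triples n, ∑ t' ∈ triples n, gnpProb n p (fun G => Good G t ∧ Good G t') := hcs
    _ ≤ P * (c ^ 3 + c ^ 6) := mul_le_mul_of_nonneg_left (hsm.trans hden) hP0

end Pool.Agent.H42.RG
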