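import Pool.Agent.H42.RG.First2

/-!
# Second moment
-/

set_option autoImplicit false

open Classical

namespace Pool.Agent.H42.RG

/-- `t` is a triangle of degree-three vertices of the 3-core with distinct outer neighbours. -/
def Good {V : Type*} (G : SimpleGraph V) (t : Finset V) : Prop :=
  ∃ a b c x y z, t = {a, b, c} ∧ Pat G a b c x y z

lemma good_clique {V : Type*} {G : SimpleGraph V} {t : Finset V} (h : Good G t) :
    ∀ u ∈ t, ∀ v ∈ t, u ≠ v → G.Adj u v := by
  obtain ⟨a, b, c, x, y, z, rfl, ⟨_, _, _, Na, Nb, Nc, _, _⟩⟩ := h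
  intro u hu v hv huv
  simp only [Finset.mem_insert, Finset.mem_singleton] at hu hv
  rcases hu with rfl | rfl | rfl <;> rcases hv with rfl | rfl | rfl
  · exact absurd rfl huv
  · exact (Na _).2 (by simp)
  · exact (Na _).2 (by simp)
  · exact (Nb _).2 (by simp)
  · exact absurd rfl huv
  · exact (Nb _).2 (by simp)
  · exact (Nc _).2 (by simp)
  · exact (Nc _).2 (by simp)
  · exact absurd rfl huv

lemma good_common {V : Type*} {G : SimpleGraph V} {t : Finset V} (h : Good G t) :
    ∀ u ∈ t, ∀ v ∈ t, u ≠ v → ∀ w, G.Adj u w → G.Adj v w → w ∈ t := by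
  obtain ⟨a, b, c, x, y, z, rfl, ⟨⟨hab, hac, hbc⟩, ⟨hxy, hxz, hyz⟩,
    ⟨⟨hax, hay, haz⟩, ⟨hbx, hby, hbz⟩, ⟨hcx, hcy, hcz⟩⟩, Na, Nb, Nc, _, _⟩⟩ := h
  have kab : ∀ w, G.Adj a w → G.Adj b w → w = c := by
    intro w h1 h2
    rcases (Na w).1 h1 with h1 | h1 | h1
    · subst h1; exact absurd h2 (G.loopless.irrefl _)
    · exact h1
    · subst h1
      rcases (Nb _).1 h2 with h2 | h2 | h2
      · exact absurd h2.symm hax
      · exact absurd h2.symm hcx
      · exact absurd h2 hxy
  have kac : ∀ w, G.Adj a w → G.Adj c w → w = b := by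
    intro w h1 h2
    rcases (Na w).1 h1 with h1 | h1 | h1
    · exact h1
    · subst h1; exact absurd h2 (G.loopless.irrefl _)
    · subst h1
      rcases (Nc _).1 h2 with h2 | h2 | h2
      · exact absurd h2.symm hax
      · exact absurd h2.symm hbx
      · exact absurd h2 hxz
  have kbc : ∀ w, G.Adj b w → G.Adj c w → w = a := by
    intro w h1 h2
    rcases (Nb w).1 h1 with h1 | h1 | h1
    · exact h1
    · subst h1; exact absurd h2 (G.loopless.irrefl _)
    · subst h1
      rcases (Nc _).1 h2 with h2 | h2 | h2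
      · exact absurd h2.symm hay
      · exact absurd h2.symm hby
      · exact absurd h2 hyz
  intro u hu v hv huv w h1 h2
  simp only [Finset.mem_insert, Finset.mem_singleton] at hu hv ⊢
  rcases hu with rfl | rfl | rfl <;> rcases hv with rfl | rfl | rfl
  · exact absurd rfl huv
  · exact Or.inr (Or.inr (kab w h1 h2))
  · exact Or.inr (Or.inl (kac w h1 h2))
  · exact Or.inr (Or.inr (kab w h2 h1))
  · exact absurd rfl huv
  · exact Or.inl (kbc w h1 h2)
  · exact Or.inr (Or.inl (kac w h2 h1))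
  · exact Or.inl (kbc w h2 h1)
  · exact absurd rfl huv

lemma good_card {V : Type*} {G : SimpleGraph V} {t : Finset V} (h : Good G t) : t.card = 3 := by
  obtain ⟨a, b, c, x, y, z, rfl, ⟨⟨hab, hac, hbc⟩, _⟩⟩ := h
  exact Finset.card_eq_three.2 ⟨a, b, c, hab, hac, hbc, rfl⟩

lemma good_unique {V : Type*} {G : SimpleGraph V} {t t' : Finset V} (h : Good G t)
    (h' : Good G t') {u v : V} (huv : u ≠ v) (hu : u ∈ t) (hv : v ∈ t) (hu' : u ∈ t')
    (hv' : v ∈ t') : t = t' := by
  symm
  apply Finset.eq_of_subset_of_card_le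
  · intro w hw
    by_cases hwu : w = u
    · exact hwu ▸ hu
    by_cases hwv : w = v
    · exact hwv ▸ hv
    exact good_common h u hu v hv huv w (good_clique h' u hu' w hw (Ne.symm hwu))
      (good_clique h' v hv' w hw (Ne.symm hwv))
  · rw [good_card h, good_card h']

/-- The edges inside `t`. -/
noncomputable def inner {n : ℕ} (t : Finset (Fin n)) : Finset (Sym2 (Fin n)) :=
  (pairs n).filter (fun e => ∀ u ∈ e, u ∈ t)

lemma inner_card {n : ℕ} {t : Finset (Fin n)} (ht : t.card = 3) : (inner t).card = 3 := by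
  obtain ⟨a, b, c, hab, hac, hbc, rfl⟩ := Finset.card_eq_three.1 ht
  have : inner ({a, b, c} : Finset (Fin n)) = {s(a, b), s(a, c), s(b, c)} := by
    ext e
    induction e using Sym2.ind with
    | _ u v =>
      simp only [inner, Finset.mem_filter, mem_pairs, Sym2.mk_isDiag_iff, Sym2.mem_iff,
        Finset.mem_insert, Finset.mem_singleton, Sym2.eq_iff, forall_eq_or_imp, forall_eq]
      constructor
      · rintro ⟨h1, h2 | h2 | h2, h3 | h3 | h3⟩ <;> simp_all
      · rintro ((⟨rfl, rfl⟩ | ⟨rfl, rfl⟩) | (⟨rfl, rfl⟩ | ⟨rfl, rfl⟩) | (⟨rfl, rfl⟩ | ⟨rfl, rfl⟩))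
          <;> simp [hab, hac, hbc, hab.symm, hac.symm, hbc.symm]
  rw [this, Finset.card_eq_three]
  refine ⟨_, _, _, ?_, ?_, ?_, rfl⟩
  · simp [hab, hac, hbc, hab.symm, hac.symm, hbc.symm]
  · simp [hab, hac, hbc, hab.symm, hac.symm, hbc.symm]
  · simp [hab, hac, hbc, hab.symm, hac.symm, hbc.symm]

lemma good_inner {n : ℕ} {G : SimpleGraph (Fin n)} {t : Finset (Fin n)} (h : Good G t) :
    ∀ e ∈ inner t, e ∈ G.edgeSet := by
  intro e he
  induction e using Sym2.ind with
  | _ u v =>
    simp only [inner, Finset.mem_filter, mem_pairs, Sym2.mk_isDiag_iff, Sym2.mem_iff,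
      forall_eq_or_imp, forall_eq] at he
    exact (SimpleGraph.mem_edgeSet _).2 (good_clique h u he.2.1 v he.2.2 he.1)

lemma single_bound {n : ℕ} {p : ℝ} (h0 : 0 ≤ p) (h1 : p ≤ 1) {t : Finset (Fin n)}
    (ht : t.card = 3) : gnpProb n p (fun G => Good G t) ≤ p ^ 3 := by
  have := gnpProb_contains n p (inner t) (Finset.filter_subset _ _)
  rw [inner_card ht] at this
  rw [← this]
  exact gnpProb_mono h0 h1 (fun G hG => good_inner hG)

lemma pair_bound {n : ℕ} {p : ℝ} (h0 : 0 ≤ p) (h1 : p ≤ 1) {t t' : Finset (Fin n)}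
    (ht : t.card = 3) (ht' : t'.card = 3) (hne : t ≠ t') :
    gnpProb n p (fun G => Good G t ∧ Good G t') ≤ p ^ 6 := by
  by_cases hd : Disjoint (inner t) (inner t')
  · have := gnpProb_contains n p (inner t ∪ inner t')
      (Finset.union_subset (Finset.filter_subset _ _) (Finset.filter_subset _ _))
    rw [Finset.card_union_of_disjoint hd, inner_card ht, inner_card ht'] at this
    rw [← this]
    refine gnpProb_mono h0 h1 (fun G hG e he => ?_)
    rcases Finset.mem_union.1 he with he | he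
    · exact good_inner hG.1 e he
    · exact good_inner hG.2 e he
  · have : gnpProb n p (fun G => Good G t ∧ Good G t') = 0 := by
      unfold gnpProb
      apply Finset.sum_eq_zero
      intro G _
      rw [if_neg]
      rintro ⟨hG, hG'⟩
      rw [Finset.not_disjoint_iff] at hd
      obtain ⟨e, he, he'⟩ := hd
      induction e using Sym2.ind with
      | _ u v =>
        simp only [inner, Finset.mem_filter, mem_pairs, Sym2.mk_isDiag_iff, Sym2.mem_iff,
          forall_eq_or_imp, forall_eq] at he he'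
        exact hne (good_unique hG hG' he.1 he.2.1 he.2.2 he'.2.1 he'.2.2)
    rw [this]
    positivity

/-- The Cauchy-Schwarz inequality for a sum of indicators. -/
lemma cauchy {n : ℕ} {p : ℝ} (h0 : 0 ≤ p) (h1 : p ≤ 1) {ι : Type*} (T : Finset ι)
    (A : ι → SimpleGraph (Fin n) → Prop) :
    (∑ t ∈ T, gnpProb n p (A t)) ^ 2 ≤ gnpProb n p (fun G => ∃ t ∈ T, A t G) *
      ∑ t ∈ T, ∑ t' ∈ T, gnpProb n p (fun G => A t G ∧ A t' G) := by
  set N : SimpleGraph (Fin n) → ℝ := fun G => ∑ t ∈ T, (if A t G then 1 else 0) with hN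
  have e1 : ∑ t ∈ T, gnpProb n p (A t) = ∑ G : SimpleGraph (Fin n), gnpWeight n p G * N G := by
    unfold gnpProb
    rw [Finset.sum_comm]
    refine Finset.sum_congr rfl (fun G _ => ?_)
    rw [hN, Finset.mul_sum]
    refine Finset.sum_congr rfl (fun t _ => ?_)
    split_ifs <;> simp
  have e2 : ∑ t ∈ T, ∑ t' ∈ T, gnpProb n p (fun G => A t G ∧ A t' G)
      = ∑ G : SimpleGraph (Fin n), gnpWeight n p G * N G ^ 2 := by
    have : ∀ t ∈ T, ∑ t' ∈ T, gnpProb n p (fun G => A t G ∧ A t' G)
        = ∑ G : SimpleGraph (Fin n), ∑ t' ∈ T, (if A t G ∧ A t' G then gnpWeight n p G else 0) := by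
      intro t _
      unfold gnpProb
      rw [Finset.sum_comm]
      refine Finset.sum_congr rfl (fun G _ => Finset.sum_congr rfl (fun t' _ => ?_))
      by_cases h : A t G ∧ A t' G
      · rw [if_pos h, if_pos h]
      · rw [if_neg h, if_neg h]
    rw [Finset.sum_congr rfl this, Finset.sum_comm]
    refine Finset.sum_congr rfl (fun G _ => ?_)
    rw [hN, sq]
    simp only
    rw [Finset.sum_mul_sum, Finset.mul_sum]
    refine Finset.sum_congr rfl (fun t _ => ?_)
    rw [Finset.mul_sum]
    refine Finset.sum_congr rfl (fun t' _ => ?_)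
    by_cases hA : A t G <;> by_cases hB : A t' G <;> simp [hA, hB]
  have e3 : gnpProb n p (fun G => ∃ t ∈ T, A t G)
      = ∑ G : SimpleGraph (Fin n), gnpWeight n p G * (if ∃ t ∈ T, A t G then 1 else 0) ^ 2 := by
    unfold gnpProb
    refine Finset.sum_congr rfl (fun G _ => ?_)
    split_ifs <;> simp
  rw [e1, e2, e3]
  have cs := Finset.sum_mul_sq_le_sq_mul_sq (Finset.univ : Finset (SimpleGraph (Fin n)))
    (fun G => Real.sqrt (gnpWeight n p G) * (if ∃ t ∈ T, A t G then 1 else 0))
    (fun G => Real.sqrt (gnpWeight n p G) * N G)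
  have f1 : ∀ G : SimpleGraph (Fin n),
      Real.sqrt (gnpWeight n p G) * (if ∃ t ∈ T, A t G then 1 else 0) *
        (Real.sqrt (gnpWeight n p G) * N G) = gnpWeight n p G * N G := by
    intro G
    have hs := Real.mul_self_sqrt (gnpWeight_nonneg h0 h1 G)
    by_cases hex : ∃ t ∈ T, A t G
    · rw [if_pos hex]
      linear_combination N G * hs
    · rw [if_neg hex]
      have : N G = 0 := by
        rw [hN]
        apply Finset.sum_eq_zero
        intro t ht
        rw [if_neg]
        exact fun h => hex ⟨t, ht, h⟩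
      rw [this]; ring
  have f2 : ∀ G : SimpleGraph (Fin n),
      (Real.sqrt (gnpWeight n p G) * (if ∃ t ∈ T, A t G then 1 else 0)) ^ 2
        = gnpWeight n p G * (if ∃ t ∈ T, A t G then 1 else 0) ^ 2 := by
    intro G
    rw [mul_pow, Real.sq_sqrt (gnpWeight_nonneg h0 h1 G)]
  have f3 : ∀ G : SimpleGraph (Fin n),
      (Real.sqrt (gnpWeight n p G) * N G) ^ 2 = gnpWeight n p G * N G ^ 2 := by
    intro G
    rw [mul_pow, Real.sq_sqrt (gnpWeight_nonneg h0 h1 G)]
  simp only [f1, f2, f3] at cs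
  exact cs

end Pool.Agent.H42.RG
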