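import Pool.Agent.H42.RG.Second2

/-!
# A graph with a triangle of degree-three vertices is not globally rigid in the plane
-/

set_option autoImplicit false

open MvPolynomial

namespace Pool.Agent.H42.RG

lemma dist_iff (A B A' B' : EuclideanSpace ℝ (Fin 2)) : dist A B = dist A' B' ↔
    (A 0 - B 0) ^ 2 + (A 1 - B 1) ^ 2 = (A' 0 - B' 0) ^ 2 + (A' 1 - B' 1) ^ 2 := by
  rw [EuclideanSpace.dist_eq, EuclideanSpace.dist_eq, Real.sqrt_inj (by positivity)
    (by positivity)]
  simp [Fin.sum_univ_two, Real.dist_eq, sq_abs]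

/-- Three non-collinear points determine a point by its distances. -/
lemma three_points {A1 A2 B1 B2 x1 x2 y1 y2 z1 z2 : ℝ}
    (hne : (y1 - x1) * (z2 - x2) - (y2 - x2) * (z1 - x1) ≠ 0)
    (hx : (A1 - x1) ^ 2 + (A2 - x2) ^ 2 = (B1 - x1) ^ 2 + (B2 - x2) ^ 2)
    (hy : (A1 - y1) ^ 2 + (A2 - y2) ^ 2 = (B1 - y1) ^ 2 + (B2 - y2) ^ 2)
    (hz : (A1 - z1) ^ 2 + (A2 - z2) ^ 2 = (B1 - z1) ^ 2 + (B2 - z2) ^ 2) :
    A1 = B1 ∧ A2 = B2 := by
  have e1 : (A1 - B1) * (y1 - x1) + (A2 - B2) * (y2 - x2) = 0 := by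
    linear_combination (1 / 2) * (hx - hy)
  have e2 : (A1 - B1) * (z1 - x1) + (A2 - B2) * (z2 - x2) = 0 := by
    linear_combination (1 / 2) * (hx - hz)
  constructor
  · have : (A1 - B1) * ((y1 - x1) * (z2 - x2) - (y2 - x2) * (z1 - x1)) = 0 := by
      linear_combination (z2 - x2) * e1 - (y2 - x2) * e2
    have := (mul_eq_zero.1 this).resolve_right hne
    linarith
  · have : (A2 - B2) * ((y1 - x1) * (z2 - x2) - (y2 - x2) * (z1 - x1)) = 0 := by
      linear_combination (y1 - x1) * e2 - (z1 - x1) * e1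
    have := (mul_eq_zero.1 this).resolve_right hne
    linarith

lemma differences_algInd {W : Type*} (a b c x y z : W)
    (hab : a ≠ b) (hac : a ≠ c) (hax : a ≠ x) (hay : a ≠ y) (haz : a ≠ z)
    (hbc : b ≠ c) (hbx : b ≠ x) (hby : b ≠ y) (hbz : b ≠ z)
    (hcx : c ≠ x) (hcy : c ≠ y) (hcz : c ≠ z) (hxy : x ≠ y) (hxz : x ≠ z) (hyz : y ≠ z)
    (p : W → EuclideanSpace ℝ (Fin 2))
    (hp : AlgebraicIndependent ℚ (fun i : W × Fin 2 => p i.1 i.2)) :
    AlgebraicIndependent ℚ ![p a 0 - p x 0, p a 1 - p x 1, p b 0 - p a 0, p b 1 - p a 1,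
      p c 0 - p a 0, p c 1 - p a 1, p y 0 - p x 0, p y 1 - p x 1,
      p z 0 - p x 0, p z 1 - p x 1] := by
  classical
  let L : Fin 10 → MvPolynomial (W × Fin 2) ℚ :=
    ![X (a, 0) - X (x, 0), X (a, 1) - X (x, 1), X (b, 0) - X (a, 0), X (b, 1) - X (a, 1),
      X (c, 0) - X (a, 0), X (c, 1) - X (a, 1), X (y, 0) - X (x, 0), X (y, 1) - X (x, 1),
      X (z, 0) - X (x, 0), X (z, 1) - X (x, 1)]
  let r : W × Fin 2 → MvPolynomial (Fin 10) ℚ := fun i =>
    if i.1 = a then (if i.2 = 0 then X 0 else X 1)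
    else if i.1 = b then (if i.2 = 0 then X 0 + X 2 else X 1 + X 3)
    else if i.1 = c then (if i.2 = 0 then X 0 + X 4 else X 1 + X 5)
    else if i.1 = y then (if i.2 = 0 then X 6 else X 7)
    else if i.1 = z then (if i.2 = 0 then X 8 else X 9)
    else 0
  have h := algInd_of_retract hp L r (by
    intro k
    fin_cases k <;>
      simp [L, r, hab.symm, hac.symm, hax.symm, hay.symm, haz.symm, hbc.symm, hbx.symm,
        hby.symm, hbz.symm, hcx.symm, hcy.symm, hcz.symm, hxy, hxz, hyz.symm])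
  convert h using 1
  funext k
  fin_cases k <;> simp [L]

/-- If the three vertices of a triangle `a b c` have exactly one further neighbour each (`x`, `y`,
`z`, distinct), then every generic placement in the plane has an equivalent placement that is not
congruent to it. -/
theorem platform {W : Type*} (H : SimpleGraph W) (a b c x y z : W)
    (hab : a ≠ b) (hac : a ≠ c) (hax : a ≠ x) (hay : a ≠ y) (haz : a ≠ z)
    (hbc : b ≠ c) (hbx : b ≠ x) (hby : b ≠ y) (hbz : b ≠ z)
    (hcx : c ≠ x) (hcy : c ≠ y) (hcz : c ≠ z) (hxy : x ≠ y) (hxz : x ≠ z) (hyz : y ≠ z)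
    (hNa : ∀ w, H.Adj a w → w = b ∨ w = c ∨ w = x)
    (hNb : ∀ w, H.Adj b w → w = a ∨ w = c ∨ w = y)
    (hNc : ∀ w, H.Adj c w → w = a ∨ w = b ∨ w = z)
    (p : W → EuclideanSpace ℝ (Fin 2))
    (hp : AlgebraicIndependent ℚ (fun i : W × Fin 2 => p i.1 i.2)) :
    ∃ q : W → EuclideanSpace ℝ (Fin 2), (∀ u v, H.Adj u v → dist (q u) (q v) = dist (p u) (p v)) ∧
      ¬ ∀ u v, dist (q u) (q v) = dist (p u) (p v) := by
  classical
  have hf := differences_algInd a b c x y z hab hac hax hay haz hbc hbx hby hbz hcx hcy hcz hxy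
    hxz hyz p hp
  obtain ⟨C, S, t1, t2, hCS, hC1, hx, hy, hz⟩ := exists_second hf
  have hcross := cross_ne hf
  have hune := u_ne hf
  let q : W → EuclideanSpace ℝ (Fin 2) := fun w =>
    if w = a then !₂[p x 0 + t1, p x 1 + t2]
    else if w = b then !₂[p x 0 + t1 + (C * (p b 0 - p a 0) - S * (p b 1 - p a 1)),
      p x 1 + t2 + (S * (p b 0 - p a 0) + C * (p b 1 - p a 1))]
    else if w = c then !₂[p x 0 + t1 + (C * (p c 0 - p a 0) - S * (p c 1 - p a 1)),
      p x 1 + t2 + (S * (p c 0 - p a 0) + C * (p c 1 - p a 1))]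
    else p w
  have qa0 : q a 0 = p x 0 + t1 := by simp [q]
  have qa1 : q a 1 = p x 1 + t2 := by simp [q]
  have qb0 : q b 0 = p x 0 + t1 + (C * (p b 0 - p a 0) - S * (p b 1 - p a 1)) := by
    simp [q, hab.symm]
  have qb1 : q b 1 = p x 1 + t2 + (S * (p b 0 - p a 0) + C * (p b 1 - p a 1)) := by
    simp [q, hab.symm]
  have qc0 : q c 0 = p x 0 + t1 + (C * (p c 0 - p a 0) - S * (p c 1 - p a 1)) := by
    simp [q, hac.symm, hbc.symm]
  have qc1 : q c 1 = p x 1 + t2 + (S * (p c 0 - p a 0) + C * (p c 1 - p a 1)) := by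
    simp [q, hac.symm, hbc.symm]
  have qo : ∀ w, w ≠ a → w ≠ b → w ≠ c → q w = p w := by
    intro w h1 h2 h3
    simp [q, h1, h2, h3]
  -- the six special edges
  have dab : dist (q a) (q b) = dist (p a) (p b) := by
    rw [dist_iff, qa0, qa1, qb0, qb1]
    linear_combination ((p b 0 - p a 0) ^ 2 + (p b 1 - p a 1) ^ 2) * hCS
  have dac : dist (q a) (q c) = dist (p a) (p c) := by
    rw [dist_iff, qa0, qa1, qc0, qc1]
    linear_combination ((p c 0 - p a 0) ^ 2 + (p c 1 - p a 1) ^ 2) * hCS
  have dbc : dist (q b) (q c) = dist (p b) (p c) := by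
    rw [dist_iff, qb0, qb1, qc0, qc1]
    linear_combination ((p c 0 - p b 0) ^ 2 + (p c 1 - p b 1) ^ 2) * hCS
  have dax : dist (q a) (q x) = dist (p a) (p x) := by
    rw [qo x hax.symm hbx.symm hcx.symm, dist_iff, qa0, qa1]
    linear_combination hx
  have dby : dist (q b) (q y) = dist (p b) (p y) := by
    rw [qo y hay.symm hby.symm hcy.symm, dist_iff, qb0, qb1]
    linear_combination hy
  have dcz : dist (q c) (q z) = dist (p c) (p z) := by
    rw [qo z haz.symm hbz.symm hcz.symm, dist_iff, qc0, qc1]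
    linear_combination hz
  have adj_a : ∀ w, H.Adj a w → dist (q a) (q w) = dist (p a) (p w) := by
    intro w hw
    rcases hNa w hw with rfl | rfl | rfl
    · exact dab
    · exact dac
    · exact dax
  have adj_b : ∀ w, H.Adj b w → dist (q b) (q w) = dist (p b) (p w) := by
    intro w hw
    rcases hNb w hw with rfl | rfl | rfl
    · rw [dist_comm, dab, dist_comm]
    · exact dbc
    · exact dby
  have adj_c : ∀ w, H.Adj c w → dist (q c) (q w) = dist (p c) (p w) := by
    intro w hw
    rcases hNc w hw with rfl | rfl | rfl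
    · rw [dist_comm, dac, dist_comm]
    · rw [dist_comm, dbc, dist_comm]
    · exact dcz
  refine ⟨q, ?_, ?_⟩
  · intro u v huv
    by_cases hua : u = a
    · subst hua; exact adj_a v huv
    by_cases hub : u = b
    · subst hub; exact adj_b v huv
    by_cases huc : u = c
    · subst huc; exact adj_c v huv
    by_cases hva : v = a
    · subst hva; rw [dist_comm, adj_a u huv.symm, dist_comm]
    by_cases hvb : v = b
    · subst hvb; rw [dist_comm, adj_b u huv.symm, dist_comm]
    by_cases hvc : v = c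
    · subst hvc; rw [dist_comm, adj_c u huv.symm, dist_comm]
    rw [qo u hua hub huc, qo v hva hvb hvc]
  · intro hcong
    have hxo := qo x hax.symm hbx.symm hcx.symm
    have hyo := qo y hay.symm hby.symm hcy.symm
    have hzo := qo z haz.symm hbz.symm hcz.symm
    have ga : q a 0 = p a 0 ∧ q a 1 = p a 1 := by
      refine three_points (x1 := p x 0) (x2 := p x 1) (y1 := p y 0) (y2 := p y 1) (z1 := p z 0)
        (z2 := p z 1) hcross ?_ ?_ ?_
      · have := hcong a x
        rwa [hxo, dist_iff] at this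
      · have := hcong a y
        rwa [hyo, dist_iff] at this
      · have := hcong a z
        rwa [hzo, dist_iff] at this
    have gb : q b 0 = p b 0 ∧ q b 1 = p b 1 := by
      refine three_points (x1 := p x 0) (x2 := p x 1) (y1 := p y 0) (y2 := p y 1) (z1 := p z 0)
        (z2 := p z 1) hcross ?_ ?_ ?_
      · have := hcong b x
        rwa [hxo, dist_iff] at this
      · have := hcong b y
        rwa [hyo, dist_iff] at this
      · have := hcong b z
        rwa [hzo, dist_iff] at this
    obtain ⟨ga0, ga1⟩ := ga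
    obtain ⟨gb0, gb1⟩ := gb
    rw [qa0] at ga0
    rw [qa1] at ga1
    rw [qb0] at gb0
    rw [qb1] at gb1
    have h1 : C * (p b 0 - p a 0) - S * (p b 1 - p a 1) = p b 0 - p a 0 := by linarith
    have h2 : S * (p b 0 - p a 0) + C * (p b 1 - p a 1) = p b 1 - p a 1 := by linarith
    have h3 : (C - 1) * ((p b 0 - p a 0) ^ 2 + (p b 1 - p a 1) ^ 2) = 0 := by
      linear_combination (p b 0 - p a 0) * h1 + (p b 1 - p a 1) * h2
    rcases mul_eq_zero.1 h3 with h | h
    · exact hC1 (by linarith)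
    · exact hune h

/-- The transcendence bases of the reals over the rationals are infinite. -/
lemma infinite_basis {ι : Type} {x : ι → ℝ} (hx : IsTranscendenceBasis ℚ x) : Infinite ι := by
  by_contra hfin
  rw [not_infinite_iff_finite] at hfin
  have hR : ¬ (Cardinal.mk ℝ ≤ Cardinal.aleph0) := by
    rw [Cardinal.mk_real]
    exact not_le.2 Cardinal.aleph0_lt_continuum
  apply hR
  rcases isEmpty_or_nonempty ι with he | hne
  · have halg : Algebra.IsAlgebraic ℚ ℝ := by
      by_contra hna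
      have : Algebra.Transcendental ℚ ℝ := by
        rwa [Algebra.transcendental_iff_not_isAlgebraic]
      obtain ⟨i⟩ := hx.nonempty_iff_transcendental.2 this
      exact he.false i
    have := Algebra.IsAlgebraic.cardinalMk_le_max ℚ ℝ
    simpa using this
  · have := hx.lift_cardinalMk_eq_max_lift
    simp only [Cardinal.lift_uzero, Cardinal.mkRat] at this
    rw [this]
    simp

/-- Generic placements exist. -/
theorem exists_generic (W : Type) [Finite W] (d : ℕ) :
    ∃ p : W → EuclideanSpace ℝ (Fin d),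
      AlgebraicIndependent ℚ (fun i : W × Fin d => p i.1 i.2) := by
  obtain ⟨ι, x, hx⟩ := exists_isTranscendenceBasis' ℚ ℝ
  have hinf : Infinite ι := infinite_basis hx
  obtain ⟨n, ⟨e⟩⟩ := Finite.exists_equiv_fin (W × Fin d)
  let g : W × Fin d → ι := fun i => Infinite.natEmbedding ι (e i)
  have hg : Function.Injective g := by
    intro i j hij
    have h1 := (Infinite.natEmbedding ι).injective hij
    exact e.injective (Fin.ext h1)
  refine ⟨fun w => WithLp.toLp 2 (fun j => x (g (w, j))), ?_⟩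
  exact hx.1.comp g hg

end Pool.Agent.H42.RG
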