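import Pool.Agent.H42.RG.Alg

/-!
# The second position of a triangle attached to a rigid body by three bars in the plane
-/

set_option autoImplicit false

open MvPolynomial Real

namespace Pool.Agent.H42.RG

def Wx (u1 u2 m1 C S : ℝ) : ℝ := C * u1 - S * u2 - m1
def Wy (u1 u2 m2 C S : ℝ) : ℝ := S * u1 + C * u2 - m2
def hh (w1 w2 u1 u2 m1 m2 C S : ℝ) : ℝ :=
  w1 * (u1 - m1) + w2 * (u2 - m2) + ((C * u1 - S * u2) * m1 + (S * u1 + C * u2) * m2)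
    - (u1 * m1 + u2 * m2)
def DD (u1 u2 v1 v2 m1 m2 k1 k2 C S : ℝ) : ℝ :=
  Wx u1 u2 m1 C S * Wy v1 v2 k2 C S - Wy u1 u2 m2 C S * Wx v1 v2 k1 C S
def N1 (w1 w2 u1 u2 v1 v2 m1 m2 k1 k2 C S : ℝ) : ℝ :=
  hh w1 w2 u1 u2 m1 m2 C S * Wy v1 v2 k2 C S - hh w1 w2 v1 v2 k1 k2 C S * Wy u1 u2 m2 C S
def N2 (w1 w2 u1 u2 v1 v2 m1 m2 k1 k2 C S : ℝ) : ℝ :=
  Wx u1 u2 m1 C S * hh w1 w2 v1 v2 k1 k2 C S - Wx v1 v2 k1 C S * hh w1 w2 u1 u2 m1 m2 C S
def PP (w1 w2 u1 u2 v1 v2 m1 m2 k1 k2 C S : ℝ) : ℝ :=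
  N1 w1 w2 u1 u2 v1 v2 m1 m2 k1 k2 C S ^ 2 + N2 w1 w2 u1 u2 v1 v2 m1 m2 k1 k2 C S ^ 2
    - (w1 ^ 2 + w2 ^ 2) * DD u1 u2 v1 v2 m1 m2 k1 k2 C S ^ 2

section facts

variable {w1 w2 u1 u2 v1 v2 m1 m2 k1 k2 : ℝ}

lemma det_ne (hf : AlgebraicIndependent ℚ ![w1, w2, u1, u2, v1, v2, m1, m2, k1, k2]) :
    (u1 - m1) * (v2 - k2) - (u2 - m2) * (v1 - k1) ≠ 0 := by
  have := transfer hf ((X 2 - X 6) * (X 5 - X 9) - (X 3 - X 7) * (X 4 - X 8))
    ![0, 0, 1, 0, 0, 1, 0, 0, 0, 0] (by simp)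
  simpa using this

lemma alpha_ne (hf : AlgebraicIndependent ℚ ![w1, w2, u1, u2, v1, v2, m1, m2, k1, k2]) :
    (u1 * k2 - u2 * k1) + (m1 * v2 - m2 * v1) ≠ 0 := by
  have := transfer hf ((X 2 * X 9 - X 3 * X 8) + (X 6 * X 5 - X 7 * X 4))
    ![0, 0, 1, 0, 0, 0, 0, 0, 0, 1] (by simp)
  simpa using this

lemma cross_ne (hf : AlgebraicIndependent ℚ ![w1, w2, u1, u2, v1, v2, m1, m2, k1, k2]) :
    m1 * k2 - m2 * k1 ≠ 0 := by
  have := transfer hf (X 6 * X 9 - X 7 * X 8)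
    ![0, 0, 0, 0, 0, 0, 1, 0, 0, 1] (by simp)
  simpa using this

lemma norm_ne (hf : AlgebraicIndependent ℚ ![w1, w2, u1, u2, v1, v2, m1, m2, k1, k2]) :
    u1 ^ 2 + u2 ^ 2 - (m1 ^ 2 + m2 ^ 2) ≠ 0 := by
  have := transfer hf (X 2 ^ 2 + X 3 ^ 2 - (X 6 ^ 2 + X 7 ^ 2))
    ![0, 0, 1, 0, 0, 0, 0, 0, 0, 0] (by simp)
  simpa using this

lemma u_ne (hf : AlgebraicIndependent ℚ ![w1, w2, u1, u2, v1, v2, m1, m2, k1, k2]) :
    u1 ^ 2 + u2 ^ 2 ≠ 0 := by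
  have := transfer hf (X 2 ^ 2 + X 3 ^ 2)
    ![0, 0, 1, 0, 0, 0, 0, 0, 0, 0] (by simp)
  simpa using this

end facts

/-- `D` is affine in the cosine and sine. -/
lemma DD_eq {u1 u2 v1 v2 m1 m2 k1 k2 C S : ℝ} (h : C ^ 2 + S ^ 2 = 1) :
    DD u1 u2 v1 v2 m1 m2 k1 k2 C S = (u1 * v2 - u2 * v1 + (m1 * k2 - m2 * k1))
      - C * ((u1 * k2 - u2 * k1) + (m1 * v2 - m2 * v1))
      - S * ((m1 * v1 + m2 * v2) - (u1 * k1 + u2 * k2)) := by
  unfold DD Wx Wy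
  linear_combination (u1 * v2 - u2 * v1) * h

/-- The angle is algebraic over the ring generated by the other coordinates. -/
lemma angle_alg {A : Subalgebra ℚ ℝ} {al be ga C S : ℝ}
    (hal : IsAlgebraic A al) (hbe : IsAlgebraic A be) (hga : IsAlgebraic A ga)
    (hne : al ≠ 0) (hCS : C ^ 2 + S ^ 2 = 1) (hD : ga - C * al - S * be = 0) :
    IsAlgebraic A C ∧ IsAlgebraic A S := by
  have hS : IsAlgebraic A S := by
    have h1 : (((al ^ 2 + be ^ 2) * S - ga * be)) ^ 2 = al ^ 2 * (al ^ 2 + be ^ 2 - ga ^ 2) := by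
      have hC : C * al = ga - S * be := by linarith
      have h2 : (ga - S * be) ^ 2 + S ^ 2 * al ^ 2 = al ^ 2 := by
        rw [← hC]; linear_combination al ^ 2 * hCS
      linear_combination (al ^ 2 + be ^ 2) * h2
    have h3 : IsAlgebraic A ((((al ^ 2 + be ^ 2) * S - ga * be)) ^ 2) := by
      rw [h1]; (repeat' (first | assumption | apply IsAlgebraic.add | apply IsAlgebraic.sub | apply IsAlgebraic.mul | apply IsAlgebraic.neg | apply IsAlgebraic.inv | apply IsAlgebraic.pow))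
    have h4 : IsAlgebraic A (((al ^ 2 + be ^ 2) * S - ga * be)) := by
      exact h3.of_pow (by norm_num)
    have h5 : (al ^ 2 + be ^ 2) ≠ 0 := by positivity
    have h6 : S = (al ^ 2 + be ^ 2)⁻¹ * (((al ^ 2 + be ^ 2) * S - ga * be) + ga * be) := by
      field_simp; ring
    rw [h6]; (repeat' (first | assumption | apply IsAlgebraic.add | apply IsAlgebraic.sub | apply IsAlgebraic.mul | apply IsAlgebraic.neg | apply IsAlgebraic.inv | apply IsAlgebraic.pow))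
  refine ⟨?_, hS⟩
  have h7 : C = al⁻¹ * (ga - S * be) := by
    field_simp; linarith
  rw [h7]; (repeat' (first | assumption | apply IsAlgebraic.add | apply IsAlgebraic.sub | apply IsAlgebraic.mul | apply IsAlgebraic.neg | apply IsAlgebraic.inv | apply IsAlgebraic.pow))

/-- All coefficients are algebraic. -/
lemma bundle {A : Subalgebra ℚ ℝ} {C S u1 u2 m1 m2 : ℝ}
    (hC : IsAlgebraic A C) (hS : IsAlgebraic A S) (hu1 : IsAlgebraic A u1)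
    (hu2 : IsAlgebraic A u2) (hm1 : IsAlgebraic A m1) (hm2 : IsAlgebraic A m2) :
    IsAlgebraic A (Wx u1 u2 m1 C S) ∧ IsAlgebraic A (Wy u1 u2 m2 C S) ∧
    IsAlgebraic A (u1 - m1) ∧ IsAlgebraic A (u2 - m2) ∧
    IsAlgebraic A (((C * u1 - S * u2) * m1 + (S * u1 + C * u2) * m2) - (u1 * m1 + u2 * m2)) := by
  unfold Wx Wy
  refine ⟨?_, ?_, ?_, ?_, ?_⟩ <;> (repeat' (first | assumption | apply IsAlgebraic.add | apply IsAlgebraic.sub | apply IsAlgebraic.mul | apply IsAlgebraic.neg | apply IsAlgebraic.inv | apply IsAlgebraic.pow))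

lemma coef_general {ι : Type*} {f : ι → ℝ} (hf : AlgebraicIndependent ℚ f) (i : ι)
    {X Y b1 b2 g2 a1 a2 g1 w w' : ℝ}
    (hX : IsAlgebraic (Algebra.adjoin ℚ (f '' {j | j ≠ i})) X)
    (hY : IsAlgebraic (Algebra.adjoin ℚ (f '' {j | j ≠ i})) Y)
    (hb1 : IsAlgebraic (Algebra.adjoin ℚ (f '' {j | j ≠ i})) b1)
    (hb2 : IsAlgebraic (Algebra.adjoin ℚ (f '' {j | j ≠ i})) b2)
    (hg2 : IsAlgebraic (Algebra.adjoin ℚ (f '' {j | j ≠ i})) g2)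
    (ha1 : IsAlgebraic (Algebra.adjoin ℚ (f '' {j | j ≠ i})) a1)
    (ha2 : IsAlgebraic (Algebra.adjoin ℚ (f '' {j | j ≠ i})) a2)
    (hg1 : IsAlgebraic (Algebra.adjoin ℚ (f '' {j | j ≠ i})) g1)
    (hw' : IsAlgebraic (Algebra.adjoin ℚ (f '' {j | j ≠ i})) w')
    (hw : f i = w)
    (h : X * (w * b1 + w' * b2 + g2) - Y * (w * a1 + w' * a2 + g1) = 0) :
    X * b1 - Y * a1 = 0 := by
  refine coeff_zero hf i (α := X * b1 - Y * a1)
    (β := -(X * (w' * b2 + g2) - Y * (w' * a2 + g1))) ?_ ?_ ?_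
  · exact (hX.mul hb1).sub (hY.mul ha1)
  · exact ((hX.mul ((hw'.mul hb2).add hg2)).sub (hY.mul ((hw'.mul ha2).add hg1))).neg
  · rw [hw]; linear_combination h

/-- The determinant and the numerators of Cramer's rule have no common zero on the circle. -/
lemma no_common_zero {w1 w2 u1 u2 v1 v2 m1 m2 k1 k2 : ℝ}
    (hf : AlgebraicIndependent ℚ ![w1, w2, u1, u2, v1, v2, m1, m2, k1, k2]) {C S : ℝ}
    (hCS : C ^ 2 + S ^ 2 = 1) (hD : DD u1 u2 v1 v2 m1 m2 k1 k2 C S = 0)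
    (h1 : N1 w1 w2 u1 u2 v1 v2 m1 m2 k1 k2 C S = 0)
    (h2 : N2 w1 w2 u1 u2 v1 v2 m1 m2 k1 k2 C S = 0) : False := by
  have hD' := DD_eq (u1 := u1) (u2 := u2) (v1 := v1) (v2 := v2) (m1 := m1) (m2 := m2)
    (k1 := k1) (k2 := k2) hCS
  rw [hD] at hD'
  -- algebraic over everything but coordinate `i`
  have key : ∀ i : Fin 10, ∀ j : Fin 10, j ≠ i →
      IsAlgebraic (Algebra.adjoin ℚ (![w1, w2, u1, u2, v1, v2, m1, m2, k1, k2] '' {j | j ≠ i}))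
        (![w1, w2, u1, u2, v1, v2, m1, m2, k1, k2] j) := by
    intro i j hj
    have hm : ![w1, w2, u1, u2, v1, v2, m1, m2, k1, k2] j ∈
        Algebra.adjoin ℚ (![w1, w2, u1, u2, v1, v2, m1, m2, k1, k2] '' {j | j ≠ i}) :=
      Algebra.subset_adjoin ⟨j, hj, rfl⟩
    exact isAlgebraic_algebraMap
      (⟨_, hm⟩ : Algebra.adjoin ℚ (![w1, w2, u1, u2, v1, v2, m1, m2, k1, k2] '' {j | j ≠ i}))
  have hal := alpha_ne hf
  have hdet := det_ne hf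
  have hnorm := norm_ne hf
  have fin : ∀ i : Fin 10, i = 0 ∨ i = 1 → ∀ A : Subalgebra ℚ ℝ,
      (∀ j : Fin 10, j ≠ i → IsAlgebraic A (![w1, w2, u1, u2, v1, v2, m1, m2, k1, k2] j)) →
      (IsAlgebraic A (Wx u1 u2 m1 C S) ∧ IsAlgebraic A (Wy u1 u2 m2 C S) ∧
      IsAlgebraic A (u1 - m1) ∧ IsAlgebraic A (u2 - m2) ∧
      IsAlgebraic A
        (((C * u1 - S * u2) * m1 + (S * u1 + C * u2) * m2) - (u1 * m1 + u2 * m2))) ∧
      (IsAlgebraic A (Wx v1 v2 k1 C S) ∧ IsAlgebraic A (Wy v1 v2 k2 C S) ∧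
      IsAlgebraic A (v1 - k1) ∧ IsAlgebraic A (v2 - k2) ∧
      IsAlgebraic A
        (((C * v1 - S * v2) * k1 + (S * v1 + C * v2) * k2) - (v1 * k1 + v2 * k2))) := by
    intro i hi A hA
    have hu1 := hA 2 (by rcases hi with rfl | rfl <;> decide)
    have hu2 := hA 3 (by rcases hi with rfl | rfl <;> decide)
    have hv1 := hA 4 (by rcases hi with rfl | rfl <;> decide)
    have hv2 := hA 5 (by rcases hi with rfl | rfl <;> decide)
    have hm1 := hA 6 (by rcases hi with rfl | rfl <;> decide)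
    have hm2 := hA 7 (by rcases hi with rfl | rfl <;> decide)
    have hk1 := hA 8 (by rcases hi with rfl | rfl <;> decide)
    have hk2 := hA 9 (by rcases hi with rfl | rfl <;> decide)
    simp only [Matrix.cons_val] at hu1 hu2 hv1 hv2 hm1 hm2 hk1 hk2
    obtain ⟨hC, hS⟩ := angle_alg (al := (u1 * k2 - u2 * k1) + (m1 * v2 - m2 * v1))
      (be := (m1 * v1 + m2 * v2) - (u1 * k1 + u2 * k2))
      (ga := (u1 * v2 - u2 * v1 + (m1 * k2 - m2 * k1)))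
      (((hu1.mul hk2).sub (hu2.mul hk1)).add ((hm1.mul hv2).sub (hm2.mul hv1)))
      (((hm1.mul hv1).add (hm2.mul hv2)).sub ((hu1.mul hk1).add (hu2.mul hk2)))
      (((hu1.mul hv2).sub (hu2.mul hv1)).add ((hm1.mul hk2).sub (hm2.mul hk1))) hal hCS hD'.symm
    exact ⟨bundle hC hS hu1 hu2 hm1 hm2, bundle hC hS hv1 hv2 hk1 hk2⟩
  obtain ⟨⟨p1, p2, p3, p4, p5⟩, ⟨q1, q2, q3, q4, q5⟩⟩ := fin 0 (Or.inl rfl) _ (key 0)
  obtain ⟨⟨r1, r2, r3, r4, r5⟩, ⟨s1, s2, s3, s4, s5⟩⟩ := fin 1 (Or.inr rfl) _ (key 1)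
  have hw2 := key 0 1 (by decide)
  have hw1 := key 1 0 (by decide)
  simp only [Matrix.cons_val] at hw1 hw2
  unfold N2 hh at h2
  unfold N1 hh at h1
  have e1 : Wx u1 u2 m1 C S * (v1 - k1) - Wx v1 v2 k1 C S * (u1 - m1) = 0 :=
    coef_general hf 0 (w := w1) (w' := w2) p1 q1 q3 q4 q5 p3 p4 p5 hw2 (by simp)
      (by linear_combination h2)
  have e2 : Wx u1 u2 m1 C S * (v2 - k2) - Wx v1 v2 k1 C S * (u2 - m2) = 0 :=
    coef_general hf 1 (w := w2) (w' := w1) r1 s1 s4 s3 s5 r4 r3 r5 hw1 (by simp)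
      (by linear_combination h2)
  have e3 : Wy u1 u2 m2 C S * (v1 - k1) - Wy v1 v2 k2 C S * (u1 - m1) = 0 :=
    coef_general hf 0 (w := w1) (w' := w2) p2 q2 q3 q4 q5 p3 p4 p5 hw2 (by simp)
      (by linear_combination -h1)
  have e4 : Wy u1 u2 m2 C S * (v2 - k2) - Wy v1 v2 k2 C S * (u2 - m2) = 0 :=
    coef_general hf 1 (w := w2) (w' := w1) r2 s2 s4 s3 s5 r4 r3 r5 hw1 (by simp)
      (by linear_combination -h1)
  have f1 : Wx u1 u2 m1 C S = 0 := by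
    have : Wx u1 u2 m1 C S * ((u1 - m1) * (v2 - k2) - (u2 - m2) * (v1 - k1)) = 0 := by
      linear_combination (u1 - m1) * e2 - (u2 - m2) * e1
    exact (mul_eq_zero.1 this).resolve_right hdet
  have f2 : Wy u1 u2 m2 C S = 0 := by
    have : Wy u1 u2 m2 C S * ((u1 - m1) * (v2 - k2) - (u2 - m2) * (v1 - k1)) = 0 := by
      linear_combination (u1 - m1) * e4 - (u2 - m2) * e3
    exact (mul_eq_zero.1 this).resolve_right hdet
  apply hnorm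
  unfold Wx at f1
  unfold Wy at f2
  linear_combination (-(u1 ^ 2 + u2 ^ 2)) * hCS + (C * u1 - S * u2 + m1) * f1
    + (S * u1 + C * u2 + m2) * f2

end Pool.Agent.H42.RG
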