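import Pool.Agent.H42.RG.Second

/-!
# The second position of a triangle attached to a rigid body by three bars in the plane, II
-/

set_option autoImplicit false

open MvPolynomial Real

namespace Pool.Agent.H42.RG

/-- The derivative of the eliminant at angle zero. -/
def Pd {R : Type*} [CommRing R] (w1 w2 u1 u2 v1 v2 m1 m2 k1 k2 : R) : R :=
  2 * ((w1 * (u1 - m1) + w2 * (u2 - m2)) * (v2 - k2)
      - (w1 * (v1 - k1) + w2 * (v2 - k2)) * (u2 - m2)) *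
    ((-u2 * m1 + u1 * m2) * (v2 - k2) + (w1 * (u1 - m1) + w2 * (u2 - m2)) * v1
      - ((-v2 * k1 + v1 * k2) * (u2 - m2) + (w1 * (v1 - k1) + w2 * (v2 - k2)) * u1))
  + 2 * ((u1 - m1) * (w1 * (v1 - k1) + w2 * (v2 - k2))
      - (v1 - k1) * (w1 * (u1 - m1) + w2 * (u2 - m2))) *
    (-u2 * (w1 * (v1 - k1) + w2 * (v2 - k2)) + (u1 - m1) * (-v2 * k1 + v1 * k2)
      - (-v2 * (w1 * (u1 - m1) + w2 * (u2 - m2)) + (v1 - k1) * (-u2 * m1 + u1 * m2)))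
  - (w1 ^ 2 + w2 ^ 2) * (2 * ((u1 - m1) * (v2 - k2) - (u2 - m2) * (v1 - k1)) *
    (-u2 * (v2 - k2) + (u1 - m1) * v1 - (u1 * (v1 - k1) + (u2 - m2) * (-v2))))

lemma Pd_ne {w1 w2 u1 u2 v1 v2 m1 m2 k1 k2 : ℝ}
    (hf : AlgebraicIndependent ℚ ![w1, w2, u1, u2, v1, v2, m1, m2, k1, k2]) :
    Pd w1 w2 u1 u2 v1 v2 m1 m2 k1 k2 ≠ 0 := by
  have := transfer hf (Pd (X 0) (X 1) (X 2) (X 3) (X 4) (X 5) (X 6) (X 7) (X 8) (X 9))
    ![0, 1, 0, 0, 0, 1, 1, 0, 1, 0] (by simp [Pd])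
  simpa [Pd] using this

section deriv

variable (w1 w2 u1 u2 v1 v2 m1 m2 k1 k2 : ℝ)

lemma hasDeriv_Wx : HasDerivAt (fun θ : ℝ => Wx u1 u2 m1 (cos θ) (sin θ)) (-u2) 0 := by
  unfold Wx
  have h := (((hasDerivAt_cos 0).mul_const u1).sub ((hasDerivAt_sin 0).mul_const u2)).sub_const m1
  simpa using h

lemma hasDeriv_Wy : HasDerivAt (fun θ : ℝ => Wy u1 u2 m2 (cos θ) (sin θ)) u1 0 := by
  unfold Wy
  have h := (((hasDerivAt_sin 0).mul_const u1).add ((hasDerivAt_cos 0).mul_const u2)).sub_const m2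
  simpa using h

lemma hasDeriv_hh : HasDerivAt (fun θ : ℝ => hh w1 w2 u1 u2 m1 m2 (cos θ) (sin θ))
    (-u2 * m1 + u1 * m2) 0 := by
  unfold hh
  have h1 := (((hasDerivAt_cos 0).mul_const u1).sub ((hasDerivAt_sin 0).mul_const u2)).mul_const m1
  have h2 := (((hasDerivAt_sin 0).mul_const u1).add ((hasDerivAt_cos 0).mul_const u2)).mul_const m2
  have h := ((h1.add h2).const_add (w1 * (u1 - m1) + w2 * (u2 - m2))).sub_const
    (u1 * m1 + u2 * m2)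
  simpa using h

lemma hasDeriv_PP : HasDerivAt
    (fun θ : ℝ => PP w1 w2 u1 u2 v1 v2 m1 m2 k1 k2 (cos θ) (sin θ))
    (Pd w1 w2 u1 u2 v1 v2 m1 m2 k1 k2) 0 := by
  have a1 := hasDeriv_Wx u1 u2 m1
  have a2 := hasDeriv_Wy u1 u2 m2
  have b1 := hasDeriv_Wx v1 v2 k1
  have b2 := hasDeriv_Wy v1 v2 k2
  have c1 := hasDeriv_hh w1 w2 u1 u2 m1 m2
  have c2 := hasDeriv_hh w1 w2 v1 v2 k1 k2
  have d1 := (c1.mul b2).sub (c2.mul a2)
  have d2 := (a1.mul c2).sub (b1.mul c1)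
  have d3 := (a1.mul b2).sub (a2.mul b1)
  have e := ((d1.pow 2).add (d2.pow 2)).sub ((d3.pow 2).const_mul (w1 ^ 2 + w2 ^ 2))
  refine e.congr_deriv ?_ 
  simp [Pd, Wx, Wy, hh]

lemma continuous_PP : Continuous
    (fun θ : ℝ => PP w1 w2 u1 u2 v1 v2 m1 m2 k1 k2 (cos θ) (sin θ)) := by
  unfold PP N1 N2 DD hh Wx Wy
  fun_prop

lemma PP_zero : PP w1 w2 u1 u2 v1 v2 m1 m2 k1 k2 1 0 = 0 := by
  unfold PP N1 N2 DD hh Wx Wy
  ring

end deriv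

/-- A `2π`-periodic continuous function with a zero of nonzero derivative at `0` has another zero
that is not a multiple of the period. -/
lemma periodic_second_zero {P : ℝ → ℝ} (hc : Continuous P)
    (hper : ∀ θ, P (θ + 2 * π) = P θ) (h0 : P 0 = 0) {P' : ℝ} (hd : HasDerivAt P P' 0)
    (hne : P' ≠ 0) : ∃ θ ∈ Set.Ioo 0 (2 * π), P θ = 0 := by
  by_contra hcon
  push Not at hcon
  have hpi : 0 < 2 * π := by positivity
  have sign : (∀ θ ∈ Set.Ioo 0 (2 * π), 0 < P θ) ∨ (∀ θ ∈ Set.Ioo 0 (2 * π), P θ < 0) := by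
    by_contra h
    push Not at h
    obtain ⟨⟨s, hs, hs1⟩, ⟨t, ht, ht1⟩⟩ := h
    have hpre : IsPreconnected (Set.Ioo 0 (2 * π)) := isPreconnected_Ioo
    have := hpre.intermediate_value hs ht hc.continuousOn
    obtain ⟨r, hr, hr0⟩ := this ⟨hs1, ht1⟩
    exact hcon r hr hr0
  have near : ∀ᶠ θ in nhds (0 : ℝ), θ ∈ Set.Ioo (-(2 * π)) (2 * π) :=
    Ioo_mem_nhds (by linarith) hpi
  rcases sign with h | h
  · have hmin : IsLocalMin P 0 := by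
      filter_upwards [near] with θ hθ
      rw [h0]
      rcases lt_trichotomy θ 0 with hlt | heq | hgt
      · rw [← hper θ]
        exact (h _ ⟨by linarith [hθ.1], by linarith⟩).le
      · rw [heq, h0]
      · exact (h _ ⟨hgt, hθ.2⟩).le
    exact hne (hmin.hasDerivAt_eq_zero hd)
  · have hmax : IsLocalMax P 0 := by
      filter_upwards [near] with θ hθ
      rw [h0]
      rcases lt_trichotomy θ 0 with hlt | heq | hgt
      · rw [← hper θ]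
        exact (h _ ⟨by linarith [hθ.1], by linarith⟩).le
      · rw [heq, h0]
      · exact (h _ ⟨hgt, hθ.2⟩).le
    exact hne (hmax.hasDerivAt_eq_zero hd)

/-- The second position. -/
theorem exists_second {w1 w2 u1 u2 v1 v2 m1 m2 k1 k2 : ℝ}
    (hf : AlgebraicIndependent ℚ ![w1, w2, u1, u2, v1, v2, m1, m2, k1, k2]) :
    ∃ C S t1 t2 : ℝ, C ^ 2 + S ^ 2 = 1 ∧ C ≠ 1 ∧ t1 ^ 2 + t2 ^ 2 = w1 ^ 2 + w2 ^ 2 ∧
      (t1 + (C * u1 - S * u2 - m1)) ^ 2 + (t2 + (S * u1 + C * u2 - m2)) ^ 2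
        = (w1 + (u1 - m1)) ^ 2 + (w2 + (u2 - m2)) ^ 2 ∧
      (t1 + (C * v1 - S * v2 - k1)) ^ 2 + (t2 + (S * v1 + C * v2 - k2)) ^ 2
        = (w1 + (v1 - k1)) ^ 2 + (w2 + (v2 - k2)) ^ 2 := by
  obtain ⟨θ, hθ, hP⟩ := periodic_second_zero (continuous_PP w1 w2 u1 u2 v1 v2 m1 m2 k1 k2)
    (fun θ => by simp) (by simpa using PP_zero w1 w2 u1 u2 v1 v2 m1 m2 k1 k2)
    (hasDeriv_PP w1 w2 u1 u2 v1 v2 m1 m2 k1 k2) (Pd_ne hf)
  have hCS : cos θ ^ 2 + sin θ ^ 2 = 1 := by rw [add_comm]; exact sin_sq_add_cos_sq θ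
  have hC1 : cos θ ≠ 1 := by
    intro h
    rw [Real.cos_eq_one_iff_of_lt_of_lt (by linarith [hθ.1, Real.pi_pos]) hθ.2] at h
    exact absurd h (ne_of_gt hθ.1)
  revert hP hCS hC1
  generalize cos θ = C
  generalize sin θ = S
  intro hP hCS hC1
  have hD : DD u1 u2 v1 v2 m1 m2 k1 k2 C S ≠ 0 := by
    intro hD
    unfold PP at hP
    rw [hD] at hP
    have hN : N1 w1 w2 u1 u2 v1 v2 m1 m2 k1 k2 C S ^ 2
      + N2 w1 w2 u1 u2 v1 v2 m1 m2 k1 k2 C S ^ 2 = 0 := by linarith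
    have q1 := sq_nonneg (N1 w1 w2 u1 u2 v1 v2 m1 m2 k1 k2 C S)
    have q2 := sq_nonneg (N2 w1 w2 u1 u2 v1 v2 m1 m2 k1 k2 C S)
    have hN1 : N1 w1 w2 u1 u2 v1 v2 m1 m2 k1 k2 C S = 0 :=
      (pow_eq_zero_iff two_ne_zero).1 (by linarith)
    have hN2 : N2 w1 w2 u1 u2 v1 v2 m1 m2 k1 k2 C S = 0 :=
      (pow_eq_zero_iff two_ne_zero).1 (by linarith)
    exact no_common_zero hf hCS hD hN1 hN2
  set D := DD u1 u2 v1 v2 m1 m2 k1 k2 C S with hDdef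
  set n1 := N1 w1 w2 u1 u2 v1 v2 m1 m2 k1 k2 C S with hn1
  set n2 := N2 w1 w2 u1 u2 v1 v2 m1 m2 k1 k2 C S with hn2
  have ht1 : D * (n1 / D) = n1 := by field_simp
  have ht2 : D * (n2 / D) = n2 := by field_simp
  have hsq : (n1 / D) ^ 2 + (n2 / D) ^ 2 = w1 ^ 2 + w2 ^ 2 := by
    unfold PP at hP
    rw [← hDdef, ← hn1, ← hn2] at hP
    field_simp
    linarith
  have l1 : (n1 / D) * Wx u1 u2 m1 C S + (n2 / D) * Wy u1 u2 m2 C S
      = hh w1 w2 u1 u2 m1 m2 C S := by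
    have : D * ((n1 / D) * Wx u1 u2 m1 C S + (n2 / D) * Wy u1 u2 m2 C S)
      = D * hh w1 w2 u1 u2 m1 m2 C S := by
      rw [mul_add, ← mul_assoc, ← mul_assoc, ht1, ht2, hn1, hn2, hDdef]
      unfold N1 N2 DD
      ring
    exact mul_left_cancel₀ hD this
  have l2 : (n1 / D) * Wx v1 v2 k1 C S + (n2 / D) * Wy v1 v2 k2 C S
      = hh w1 w2 v1 v2 k1 k2 C S := by
    have : D * ((n1 / D) * Wx v1 v2 k1 C S + (n2 / D) * Wy v1 v2 k2 C S)
      = D * hh w1 w2 v1 v2 k1 k2 C S := by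
      rw [mul_add, ← mul_assoc, ← mul_assoc, ht1, ht2, hn1, hn2, hDdef]
      unfold N1 N2 DD
      ring
    exact mul_left_cancel₀ hD this
  refine ⟨C, S, n1 / D, n2 / D, hCS, hC1, hsq, ?_, ?_⟩
  · unfold Wx Wy hh at l1
    linear_combination hsq + 2 * l1 + (u1 ^ 2 + u2 ^ 2) * hCS
  · unfold Wx Wy hh at l2
    linear_combination hsq + 2 * l2 + (v1 ^ 2 + v2 ^ 2) * hCS

end Pool.Agent.H42.RG
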